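import Pool.Agent.Hhelper79.Seam.Defs

/-!
# Seam patterns: basic facts on foldings
-/

namespace Pool.Agent.Hhelper79.Seam

open Set Filter Topology Metric

variable {P : Set E2} {S : Set E3}

theorem IsPoly.convex {C : Set E2} (h : IsPoly C) : Convex ℝ C := by
  obtain ⟨s, rfl⟩ := h
  exact convex_convexHull ℝ _

theorem IsPoly.isCompact {C : Set E2} (h : IsPoly C) : IsCompact C := by
  obtain ⟨s, rfl⟩ := h
  exact s.finite_toSet.isCompact_convexHull ℝ

theorem IsPoly.isClosed {C : Set E2} (h : IsPoly C) : IsClosed C := h.isCompact.isClosed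

/-- a nonempty open set covered by finitely many closed sets meets the interior of one of them -/
theorem exists_interior (T : Finset (Set E2)) (hT : ∀ t ∈ T, IsClosed t) {G : Set E2}
    (hG : IsOpen G) (hne : G.Nonempty) (hsub : G ⊆ ⋃ t ∈ T, t) :
    ∃ t ∈ T, (interior t ∩ G).Nonempty := by
  classical
  induction T using Finset.induction_on generalizing G with
  | empty =>
    obtain ⟨x, hx⟩ := hne
    simpa using hsub hx
  | insert t T _ ih =>
    by_cases h : (G \ t).Nonempty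
    · have h1 : IsOpen (G \ t) := hG.sdiff (hT t (Finset.mem_insert_self t T))
      obtain ⟨u, hu, x, hx1, hx2⟩ := ih (fun u hu => hT u (Finset.mem_insert_of_mem hu)) h1 h (by
        intro x hx
        have h2 := hsub hx.1
        rw [Finset.set_biUnion_insert] at h2
        exact h2.resolve_left hx.2)
      exact ⟨u, Finset.mem_insert_of_mem hu, x, hx1, hx2.1⟩
    · rw [not_nonempty_iff_eq_empty, sdiff_eq_empty] at h
      obtain ⟨x, hx⟩ := hne
      exact ⟨t, Finset.mem_insert_self t T, x, interior_maximal h hG hx, hx⟩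

theorem FlatAt.regAt {f : E2 → E3} {g : E2 →ᵃⁱ[ℝ] E3} {x : E2} (h : FlatAt P f g x) :
    RegAt P f x := by
  refine ⟨{y | y ∈ P ∧ f y = g y}, h, fun y hy => hy.1, ?_⟩
  intro y hy z hz hyz
  rw [hy.2, hz.2] at hyz
  exact g.injective hyz

theorem FlatAt.eventually {f : E2 → E3} {g : E2 →ᵃⁱ[ℝ] E3} {x : E2} (h : FlatAt P f g x) :
    ∀ᶠ y in 𝓝 x, FlatAt P f g y := eventually_eventually_nhds.mpr h

theorem FlatAt.mem {f : E2 → E3} {g : E2 →ᵃⁱ[ℝ] E3} {x : E2} (h : FlatAt P f g x) :
    x ∈ P ∧ f x = g x := h.self_of_nhds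

theorem aff_ext {g h : E2 →ᵃⁱ[ℝ] E3} {U : Set E2} (hU : IsOpen U) (hne : U.Nonempty)
    (hgh : ∀ x ∈ U, g x = h x) : g = h := by
  have h1 : g.toAffineMap = h.toAffineMap :=
    AffineMap.ext_on (hU.affineSpan_eq_top hne) fun x hx => hgh x hx
  ext1 x
  exact congrArg (fun k => k x) h1

theorem FlatAt.unique {f : E2 → E3} {g h : E2 →ᵃⁱ[ℝ] E3} {x : E2} (hg : FlatAt P f g x)
    (hh : FlatAt P f h x) : g = h := by
  have h1 : ∀ᶠ y in 𝓝 x, g y = h y := by
    filter_upwards [hg, hh] with y hy hy'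
    rw [← hy.2, ← hy'.2]
  obtain ⟨U, hU, hUo, hxU⟩ := _root_.eventually_nhds_iff.mp h1
  exact aff_ext hUo ⟨x, hxU⟩ hU

namespace Folding

variable (F : Folding P S)

theorem convexP (F : Folding P S) : Convex ℝ P := F.paper.1.convex

theorem compactP (F : Folding P S) : IsCompact P := F.paper.1.isCompact

theorem continuousOn : ContinuousOn F.f P := by
  classical
  obtain ⟨T, hT, hP, hg⟩ := F.pieces
  suffices h : ContinuousOn F.f (⋃ t ∈ T, t) from h.mono hP.subset
  clear hP
  induction T using Finset.induction_on with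
  | empty => simp
  | insert t T _ ih =>
    rw [Finset.set_biUnion_insert]
    refine ContinuousOn.union_of_isClosed ?_ ?_ ?_ ?_
    · obtain ⟨g, hg⟩ := hg t (Finset.mem_insert_self t T)
      exact g.continuous.continuousOn.congr hg
    · exact ih (fun u hu => hT u (Finset.mem_insert_of_mem hu))
        fun u hu => hg u (Finset.mem_insert_of_mem hu)
    · exact (hT t (Finset.mem_insert_self t T)).isClosed
    · exact isClosed_biUnion_finset fun u hu => (hT u (Finset.mem_insert_of_mem hu)).isClosed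

/-- regular (even flat) points are dense -/
theorem exists_flat {y : E2} (hy : y ∈ P) {V : Set E2} (hV : V ∈ 𝓝 y) :
    ∃ y' ∈ V, ∃ g, FlatAt P F.f g y' := by
  obtain ⟨T, hT, hP, hg⟩ := F.pieces
  obtain ⟨W, hWV, hWo, hyW⟩ := _root_.mem_nhds_iff.mp hV
  have h1 : y ∈ closure (interior P) := by
    rw [F.convexP.closure_interior_eq_closure_of_nonempty_interior F.paper.2]
    exact subset_closure hy
  have h2 : (W ∩ interior P).Nonempty := mem_closure_iff.mp h1 W hWo hyW
  obtain ⟨t, ht, x, hx1, hx2⟩ := exists_interior T (fun t ht => (hT t ht).isClosed)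
    (hWo.inter isOpen_interior) h2 (by
      rw [← hP]
      exact inter_subset_right.trans interior_subset)
  obtain ⟨g, hgt⟩ := hg t ht
  refine ⟨x, hWV hx2.1, g, ?_⟩
  have h3 : interior t ∩ interior P ∈ 𝓝 x :=
    (isOpen_interior.inter isOpen_interior).mem_nhds ⟨hx1, hx2.2⟩
  filter_upwards [h3] with z hz
  exact ⟨interior_subset hz.2, hgt z (interior_subset hz.1)⟩

/-- fibres are finite -/
theorem finite_fibre (s : E3) : {x | x ∈ P ∧ F.f x = s}.Finite := by
  obtain ⟨T, -, hP, hg⟩ := F.pieces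
  have h1 : {x | x ∈ P ∧ F.f x = s} ⊆ ⋃ t ∈ T, {x | x ∈ t ∧ F.f x = s} := by
    rintro x ⟨hx, hxs⟩
    rw [hP] at hx
    obtain ⟨t, ht, hxt⟩ := mem_iUnion₂.mp hx
    exact mem_iUnion₂.mpr ⟨t, ht, hxt, hxs⟩
  refine (Set.Finite.biUnion T.finite_toSet fun t ht => ?_).subset h1
  obtain ⟨g, hgt⟩ := hg t ht
  refine Set.Subsingleton.finite ?_
  rintro x ⟨hx, hxs⟩ y ⟨hy, hys⟩
  apply g.injective
  rw [← hgt x hx, ← hgt y hy, hxs, hys]

/-- the placement does not increase distances -/
theorem dist_le {x y : E2} (hx : x ∈ P) (hy : y ∈ P) : dist (F.f x) (F.f y) ≤ dist x y := by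
  set c : ℝ → E2 := fun u => AffineMap.lineMap x y u with hc
  have hcc : Continuous c := AffineMap.lineMap_continuous
  have hcP : ∀ u ∈ Icc (0 : ℝ) 1, c u ∈ P := fun u hu =>
    F.convexP.lineMap_mem hx hy hu
  have hdc : ∀ u v : ℝ, dist (c u) (c v) = |u - v| * dist x y := by
    intro u v
    rw [hc]
    simp only
    rw [dist_lineMap_lineMap, Real.dist_eq]
  let s : Set ℝ := {u | dist (F.f x) (F.f (c u)) ≤ u * dist x y}
  have hcont : ContinuousOn (fun u => F.f (c u)) (Icc 0 1) :=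
    F.continuousOn.comp hcc.continuousOn hcP
  have hs : IsClosed (s ∩ Icc 0 1) := by
    have h1 : ContinuousOn (fun u => dist (F.f x) (F.f (c u)) - u * dist x y) (Icc (0 : ℝ) 1) :=
      ((continuous_dist (α := E3)).comp_continuousOn (continuousOn_const.prodMk hcont)).sub
        (continuousOn_id.mul continuousOn_const)
    have h2 := h1.preimage_isClosed_of_isClosed isClosed_Icc (isClosed_Iic (a := (0 : ℝ)))
    convert h2 using 1
    ext u
    simp only [mem_inter_iff, mem_preimage, mem_Iic, sub_nonpos]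
    exact and_comm
  have h0 : (0 : ℝ) ∈ s := by
    change dist (F.f x) (F.f (c 0)) ≤ 0 * dist x y
    rw [hc]
    simp
  obtain ⟨T, hT, hP, hg⟩ := F.pieces
  have hmain : Icc (0 : ℝ) 1 ⊆ s := by
    refine hs.Icc_subset_of_forall_exists_gt h0 ?_
    rintro u ⟨hu, hu0, hu1⟩ v hv
    -- some piece contains points arbitrarily close to the right
    have h1 : ∃ t ∈ T, ∃ᶠ w in 𝓝[>] u, c w ∈ t := by
      by_contra hcon
      push Not at hcon
      have h2 : ∀ᶠ w in 𝓝[>] u, ∀ t ∈ T, c w ∉ t := by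
        rw [Filter.eventually_all_finset]
        exact hcon
      have h3 : ∀ᶠ w in 𝓝[>] u, w ∈ Ioo u 1 := Ioo_mem_nhdsGT hu1
      obtain ⟨w, hw1, hw2⟩ := (h2.and h3).exists
      have h4 := hcP w ⟨hu0.trans hw2.1.le, hw2.2.le⟩
      rw [hP] at h4
      obtain ⟨t, ht, hwt⟩ := mem_iUnion₂.mp h4
      exact hw1 t ht hwt
    obtain ⟨t, ht, hft⟩ := h1
    have hut : c u ∈ t := by
      have h2 : ∃ᶠ w in 𝓝 u, c w ∈ t := hft.filter_mono nhdsWithin_le_nhds
      have h3 : u ∈ closure (c ⁻¹' t) := mem_closure_iff_frequently.mpr h2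
      rwa [((hT t ht).isClosed.preimage hcc).closure_eq] at h3
    have h3 : ∀ᶠ w in 𝓝[>] u, w ∈ Ioo u (min v 1) :=
      Ioo_mem_nhdsGT (lt_min hv hu1)
    obtain ⟨w, hw1, hw2⟩ := (hft.and_eventually h3).exists
    refine ⟨w, ?_, hw2.1, (hw2.2.trans_le (min_le_left _ _)).le⟩
    obtain ⟨g, hgt⟩ := hg t ht
    have h4 : dist (F.f (c u)) (F.f (c w)) = (w - u) * dist x y := by
      rw [hgt _ hut, hgt _ hw1, g.dist_map, hdc, abs_sub_comm, abs_of_pos (sub_pos.mpr hw2.1)]
    have h5 : dist (F.f x) (F.f (c u)) ≤ u * dist x y := hu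
    have h6 := dist_triangle (F.f x) (F.f (c u)) (F.f (c w))
    change dist (F.f x) (F.f (c w)) ≤ w * dist x y
    rw [h4] at h6
    nlinarith
  have h1 := hmain (right_mem_Icc.mpr zero_le_one)
  change dist (F.f x) (F.f (c 1)) ≤ 1 * dist x y at h1
  rw [hc] at h1
  simpa using h1

/-- rigidity: the set where `f` agrees with a given isometric embedding is convex -/
theorem convex_agree (g : E2 →ᵃⁱ[ℝ] E3) : Convex ℝ {x | x ∈ P ∧ F.f x = g x} := by
  rw [convex_iff_segment_subset]
  rintro x ⟨hx, hxg⟩ y ⟨hy, hyg⟩ z hz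
  rw [segment_eq_image_lineMap] at hz
  obtain ⟨r, hr, rfl⟩ := hz
  have hzP : AffineMap.lineMap x y r ∈ P := F.convexP.lineMap_mem hx hy hr
  refine ⟨hzP, ?_⟩
  have h1 := F.dist_le hx hzP
  have h2 := F.dist_le hzP hy
  have h3 := dist_triangle (F.f x) (F.f (AffineMap.lineMap x y r)) (F.f y)
  rw [dist_left_lineMap, Real.norm_of_nonneg hr.1] at h1
  rw [dist_lineMap_right, Real.norm_of_nonneg (by linarith [hr.2])] at h2
  have h4 : dist (F.f x) (F.f y) = dist x y := by rw [hxg, hyg, g.dist_map]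
  rw [h4] at h3
  have h5 : dist (F.f x) (F.f (AffineMap.lineMap x y r)) = r * dist (F.f x) (F.f y) := by
    rw [h4]
    linarith
  have h6 : dist (F.f (AffineMap.lineMap x y r)) (F.f y) = (1 - r) * dist (F.f x) (F.f y) := by
    rw [h4]
    linarith
  rw [eq_lineMap_of_dist_eq_mul_of_dist_eq_mul h5 h6, hxg, hyg]
  exact (g.toAffineMap.apply_lineMap x y r).symm

end Folding

end Pool.Agent.Hhelper79.Seam
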