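import Mathlib

/-!
# Seam patterns of folded convex paper (MP_6cce73_lc): definitions

The paper is a convex polygon `P` in the plane, the target `S` a polygon or the surface of a
polyhedron in space. A folding is a piecewise isometric map `P → S` onto `S` with a layer order
(`up x y`: the layer at the point `x` of the paper lies further out than the layer at `y`) which is
noncrossing.
-/

namespace Pool.Agent.Hhelper79.Seam

open Set Filter Topology Metric

/-- the plane of the paper -/
abbrev E2 := EuclideanSpace ℝ (Fin 2)

/-- space -/
abbrev E3 := EuclideanSpace ℝ (Fin 3)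

/-- a convex polygon (possibly degenerate): the convex hull of finitely many points -/
def IsPoly (C : Set E2) : Prop := ∃ s : Finset E2, C = convexHull ℝ (s : Set E2)

/-- `x` is an interior point of the paper `P` at which the paper is not creased: near `x` the map
`f` is the isometric embedding `g` of the plane into space. -/
def FlatAt (P : Set E2) (f : E2 → E3) (g : E2 →ᵃⁱ[ℝ] E3) (x : E2) : Prop :=
  ∀ᶠ y in 𝓝 x, y ∈ P ∧ f y = g y

/-- `x` is an interior point of the paper `P` near which `f` is injective: the layer at `x` is not
folded over on itself (it may follow a bend of the target surface). -/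
def RegAt (P : Set E2) (f : E2 → E3) (x : E2) : Prop :=
  ∃ U ∈ 𝓝 x, U ⊆ P ∧ InjOn f U

/-- A noncrossing folding of the convex polygon `P` onto `S`, with a layer order. -/
structure Folding (P : Set E2) (S : Set E3) where
  /-- the placement of the paper -/
  f : E2 → E3
  /-- the layer order: the layer at `x` lies further out than the layer at `y` -/
  up : E2 → E2 → Prop
  /-- the paper is a nondegenerate convex polygon -/
  paper : IsPoly P ∧ (interior P).Nonempty
  /-- the placement is piecewise isometric: the paper is cut into finitely many convex polygons,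
  each placed by an isometric embedding of the plane -/
  pieces : ∃ T : Finset (Set E2), (∀ t ∈ T, IsPoly t) ∧ P = ⋃ t ∈ T, t ∧
    ∀ t ∈ T, ∃ g : E2 →ᵃⁱ[ℝ] E3, ∀ x ∈ t, f x = g x
  /-- the image is exactly the target -/
  image : f '' P = S
  /-- the layer order is a strict total order on the regular points over each point of `S` -/
  asymm : ∀ x y, RegAt P f x → RegAt P f y → f x = f y → up x y → ¬ up y x
  total : ∀ x y, RegAt P f x → RegAt P f y → f x = f y → x ≠ y → up x y ∨ up y x
  trans : ∀ x y z, RegAt P f x → RegAt P f y → RegAt P f z → f x = f y → f y = f z →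
    up x y → up y z → up x z
  /-- noncrossing: the paper near any point `z` stays on one side of the layer through a regular
  point `x` with the same image -/
  tortilla : ∀ x z, RegAt P f x → z ∈ P → z ≠ x → f z = f x →
    (∀ᶠ q : E2 × E2 in 𝓝 (x, z), RegAt P f q.1 → RegAt P f q.2 → f q.1 = f q.2 → up q.1 q.2) ∨
    (∀ᶠ q : E2 × E2 in 𝓝 (x, z), RegAt P f q.1 → RegAt P f q.2 → f q.1 = f q.2 → up q.2 q.1)
  /-- noncrossing: two creases over the same point do not interleave (finitely many points of `S`
  excepted) -/
  taco : ∃ E : Set E3, E.Finite ∧ ∀ z z', z ∈ P → z' ∈ P → z ≠ z' → f z = f z' → f z ∉ E →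
    ∃ V ∈ 𝓝 z, ∃ V' ∈ 𝓝 z', ∀ a ∈ V, ∀ a' ∈ V, ∀ b ∈ V', ∀ b' ∈ V',
      RegAt P f a → RegAt P f a' → RegAt P f b → RegAt P f b' → f a = f b → f a' = f b →
      f b' = f b → ¬ (up a b ∧ up b a' ∧ up a' b')

namespace Folding

variable {P : Set E2} {S : Set E3}

/-- the layer at `x`, and at all points near `x`, is the outermost (visible) layer -/
def TopAt (F : Folding P S) (x : E2) : Prop :=
  ∀ᶠ x' in 𝓝 x, ∀ y, RegAt P F.f y → y ≠ x' → F.f y = F.f x' → F.up x' y

/-- the seams of a folding: the points of the target over which the visible layer has a crease or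
a piece of the boundary of the paper -/
def seams (F : Folding P S) : Set E3 :=
  {s | s ∈ S ∧ ¬ ∃ (x : E2) (g : E2 →ᵃⁱ[ℝ] E3), F.f x = s ∧ FlatAt P F.f g x ∧ F.TopAt x}

end Folding

/-- `S` is a target: every flat open disc contained in `S` is open in `S`. (This holds if `S` is
contained in a plane, and if `S` is a surface.) -/
def IsTarget (S : Set E3) : Prop :=
  ∀ (g : E2 →ᵃⁱ[ℝ] E3) (x : E2) (r : ℝ), 0 < r → g '' ball x r ⊆ S →
    ∀ᶠ s in 𝓝[S] (g x), s ∈ g '' ball x r

/-- `D` is the set of seams of a noncrossing folding of some convex polygon onto `S`. -/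
def Realisable (S D : Set E3) : Prop :=
  ∃ (P : Set E2) (F : Folding P S), F.seams = D

/-- `ν` is a normal field of `S`: constant on every flat open disc contained in `S`. -/
def IsNormal (S : Set E3) (ν : E3 → E3) : Prop :=
  ∀ (g : E2 →ᵃⁱ[ℝ] E3) (x : E2) (r : ℝ), 0 < r → g '' ball x r ⊆ S →
    ∀ y ∈ ball x r, ν (g y) = ν (g x)

/-- paper placed by `g` shows its first side in the outward direction `v` -/
def Shows (g : E2 →ᵃⁱ[ℝ] E3) (v : E3) : Prop :=
  0 < Matrix.det (Matrix.of ![fun i => (g (EuclideanSpace.single 0 1) - g 0) i,
    fun i => (g (EuclideanSpace.single 1 1) - g 0) i, fun i => v i])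

/-- `D` is the set of seams of a noncrossing folding of some convex polygon of bicolour paper onto
`S` which shows the first side exactly at the points of the colour class `red`. -/
def RealisableCol (S : Set E3) (ν : E3 → E3) (red D : Set E3) : Prop :=
  ∃ (P : Set E2) (F : Folding P S), F.seams = D ∧
    ∀ x g, FlatAt P F.f g x → F.TopAt x → (F.f x ∈ red ↔ Shows g (ν (F.f x)))

/-- the visible part of the sheet of paper visible at `s`, for a relation `same` on `S ∖ D` -/
def vis (S D : Set E3) (same : E3 → E3 → Prop) (s : E3) : Set E3 :=
  {t | t ∈ S ∧ t ∉ D ∧ same s t}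

/-- `R` is a flat region without slits and holes: the isometric image of a connected regular open
set `U` of the plane such that all components of the complement of the closure of `U` are
unbounded. -/
def IsCell (R : Set E3) : Prop :=
  ∃ (g : E2 →ᵃⁱ[ℝ] E3) (U : Set E2), R = g '' U ∧ IsOpen U ∧ IsConnected U ∧
    interior (closure U) = U ∧
    ∀ q ∉ closure U, ¬ Bornology.IsBounded (connectedComponentIn (closure U)ᶜ q)

/-- A stacking of the pattern `D` on `S`: the regions of the pattern are grouped into sheets (`same s t`: the
regions of `s` and `t` belong to the same sheet), and the sheets are partially ordered (`low s t`: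
the sheet of `s` lies below the sheet of `t`), such that the following conditions hold. -/
structure IsStacking (S D : Set E3) (same low : E3 → E3 → Prop) : Prop where
  /-- `same` is an equivalence relation on `S ∖ D` -/
  refl : ∀ s ∈ S \ D, same s s
  symm : ∀ s ∈ S \ D, ∀ t ∈ S \ D, same s t → same t s
  trans : ∀ s ∈ S \ D, ∀ t ∈ S \ D, ∀ u ∈ S \ D, same s t → same t u → same s u
  /-- every region is a cell and belongs to one sheet -/
  region : ∀ s ∈ S \ D, IsCell (connectedComponentIn (S \ D) s) ∧
    ∀ t ∈ connectedComponentIn (S \ D) s, same s t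
  /-- a sheet is flat: its visible part is the isometric image of an open set `U` of the plane; it
  has no slits (`U` is regular open); its convex hull is contained in the target; and it has no
  islands: a point of the hull where the sheet is covered is joined to the outside of the hull by
  a connected set which avoids the closure of the visible part -/
  sheet : ∀ s ∈ S \ D, ∃ (g : E2 →ᵃⁱ[ℝ] E3) (U : Set E2), vis S D same s = g '' U ∧ IsOpen U ∧
    interior (closure U) = U ∧ g '' convexHull ℝ U ⊆ S ∧
    ∀ q ∉ closure U, ¬ connectedComponentIn (closure U)ᶜ q ⊆ convexHull ℝ U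
  /-- `low` is a relation between sheets -/
  congr : ∀ s ∈ S \ D, ∀ t ∈ S \ D, ∀ s' ∈ S \ D, ∀ t' ∈ S \ D, same s s' → same t t' →
    low s t → low s' t'
  asymm : ∀ s ∈ S \ D, ∀ t ∈ S \ D, low s t → ¬ low t s
  /-- two different sheets whose hulls overlap are comparable -/
  total : ∀ s ∈ S \ D, ∀ t ∈ S \ D, ¬ same s t →
    (convexHull ℝ (vis S D same s) ∩ convexHull ℝ (vis S D same t)).Nonempty → low s t ∨ low t s
  /-- the order is transitive on sheets whose hulls have a common point -/
  low_trans : ∀ s ∈ S \ D, ∀ t ∈ S \ D, ∀ u ∈ S \ D,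
    (convexHull ℝ (vis S D same s) ∩ convexHull ℝ (vis S D same t) ∩
      convexHull ℝ (vis S D same u)).Nonempty → low s t → low t u → low s u
  /-- the visible sheet is on top -/
  top : ∀ s ∈ S \ D, ∀ t ∈ S \ D, ¬ same s t → t ∈ convexHull ℝ (vis S D same s) → low s t

end Pool.Agent.Hhelper79.Seam
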