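import Pool.Agent.Hhelper79.Seam.Base

/-!
# Finite families of segments in the plane
-/

namespace Pool.Agent.Hhelper79.Seam

open Set Filter Topology Metric

/-- the set is contained in a line -/
def Lin {E : Type*} [AddCommGroup E] [Module ℝ E] (C : Set E) : Prop :=
  ∀ w ∈ C, ∀ u ∈ C, u ≠ w → ∀ x ∈ C, ∃ r : ℝ, x = AffineMap.lineMap w u r

theorem lin_range {E : Type*} [AddCommGroup E] [Module ℝ E] (a b : E) :
    Lin (range (AffineMap.lineMap a b : ℝ → E)) := by
  rintro _ ⟨α, rfl⟩ _ ⟨β, rfl⟩ hne _ ⟨γ, rfl⟩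
  have hab : β - α ≠ 0 := by
    intro h
    apply hne
    rw [sub_eq_zero.mp h]
  refine ⟨(γ - α) / (β - α), ?_⟩
  simp only [AffineMap.lineMap_apply, vsub_eq_sub, vadd_eq_add]
  have h1 : β • (b - a) + a - (α • (b - a) + a) = (β - α) • (b - a) := by
    rw [sub_smul]
    abel
  rw [h1, smul_smul, div_mul_cancel₀ _ hab, sub_smul]
  abel

theorem Lin.mono {E : Type*} [AddCommGroup E] [Module ℝ E] {C C' : Set E} (h : Lin C')
    (hC : C ⊆ C') : Lin C := fun w hw u hu hne x hx => h w (hC hw) u (hC hu) hne x (hC hx)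

theorem lin_segment {E : Type*} [AddCommGroup E] [Module ℝ E] (a b : E) :
    Lin (segment ℝ a b) := by
  refine (lin_range a b).mono ?_
  rw [segment_eq_image_lineMap]
  exact image_subset_range _ _

theorem Lin.preimage {C : Set E3} (h : Lin C) (g : E2 →ᵃⁱ[ℝ] E3) : Lin (g ⁻¹' C) := by
  intro w hw u hu hne x hx
  obtain ⟨r, hr⟩ := h (g w) hw (g u) hu (fun h => hne (g.injective h)) (g x) hx
  refine ⟨r, g.injective ?_⟩
  rw [hr]
  exact (g.toAffineMap.apply_lineMap w u r).symm

/-- the two coordinate vectors -/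
theorem Lin.interior_eq {C : Set E2} (h : Lin C) : interior C = ∅ := by
  rw [eq_empty_iff_forall_notMem]
  intro w hw
  obtain ⟨ε, hε, hball⟩ := Metric.mem_nhds_iff.mp (mem_interior_iff_mem_nhds.mp hw)
  have hmem : ∀ i : Fin 2, w + EuclideanSpace.single i (ε / 2) ∈ C := by
    intro i
    apply hball
    rw [mem_ball, dist_eq_norm, add_sub_cancel_left, EuclideanSpace.norm_single,
      Real.norm_of_nonneg (by positivity)]
    linarith
  obtain ⟨r, hr⟩ := h w (hball (mem_ball_self hε)) _ (hmem 0) (by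
    intro h0
    have h1 : (EuclideanSpace.single 0 (ε / 2) : E2) = 0 := by simpa using h0
    have h2 := congrArg (fun v : E2 => v 0) h1
    simp at h2
    linarith) _ (hmem 1)
  have h3 := congrArg (fun v : E2 => v 1) hr
  simp [AffineMap.lineMap_apply] at h3
  linarith

theorem exists_outside {G : Set E2} (hG : IsOpen G) (hne : G.Nonempty) (T : Finset (Set E2))
    (hT : ∀ t ∈ T, IsClosed t) (hT2 : ∀ t ∈ T, interior t = ∅) : ∃ x ∈ G, ∀ t ∈ T, x ∉ t := by
  by_contra hcon
  push Not at hcon
  obtain ⟨t, ht, x, hx, -⟩ := exists_interior T hT hG hne (by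
    intro x hx
    obtain ⟨t, ht, hxt⟩ := hcon x hx
    exact mem_iUnion₂.mpr ⟨t, ht, hxt⟩)
  rw [hT2 t ht] at hx
  exact hx

theorem finite_interior {E : Set E2} (hE : E.Finite) : interior E = ∅ := by
  rw [interior_eq_empty_iff_dense_compl]
  exact hE.countable.dense_compl ℝ

/-- a convex set with interior remains connected when finitely many points are removed -/
theorem preconnected_diff {P : Set E2} (hP : Convex ℝ P) (hne : (interior P).Nonempty)
    {E : Set E2} (hE : E.Finite) : IsPreconnected (P \ E) := by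
  classical
  refine isPreconnected_of_forall_pair fun x hx y hy => ?_
  have hline : ∀ a p : E2, IsClosed (range (AffineMap.lineMap a p : ℝ → E2)) := by
    intro a p
    have h1 := (Homeomorph.addRight a).isClosedMap _
      (Submodule.closed_of_finiteDimensional (Submodule.span ℝ {p - a}))
    have h2 : (range (AffineMap.lineMap a p : ℝ → E2)) =
        (Homeomorph.addRight a) '' (Submodule.span ℝ {p - a} : Set E2) := by
      ext z
      constructor
      · rintro ⟨r, rfl⟩
        exact ⟨r • (p - a), Submodule.smul_mem _ _ (Submodule.mem_span_singleton_self _),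
          by simp [AffineMap.lineMap_apply]⟩
      · rintro ⟨v, hv, rfl⟩
        obtain ⟨r, rfl⟩ := Submodule.mem_span_singleton.mp hv
        exact ⟨r, by simp [AffineMap.lineMap_apply]⟩
    rw [h2]
    exact h1
  obtain ⟨z, hz, hzT⟩ := exists_outside isOpen_interior hne
    (hE.toFinset.image (fun p => range (AffineMap.lineMap x p : ℝ → E2)) ∪
      hE.toFinset.image (fun p => range (AffineMap.lineMap y p : ℝ → E2)))
    (by
      intro t ht
      rcases Finset.mem_union.mp ht with h | h
      · obtain ⟨p, -, rfl⟩ := Finset.mem_image.mp h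
        exact hline x p
      · obtain ⟨p, -, rfl⟩ := Finset.mem_image.mp h
        exact hline y p)
    (by
      intro t ht
      rcases Finset.mem_union.mp ht with h | h
      · obtain ⟨p, -, rfl⟩ := Finset.mem_image.mp h
        exact (lin_range x p).interior_eq
      · obtain ⟨p, -, rfl⟩ := Finset.mem_image.mp h
        exact (lin_range y p).interior_eq)
  have hseg : ∀ a ∈ P \ E, (∀ p ∈ E, z ∉ range (AffineMap.lineMap a p : ℝ → E2)) →
      segment ℝ a z ⊆ P \ E := by
    intro a ha hza q hq
    refine ⟨hP.segment_subset ha.1 (interior_subset hz) hq, fun hqE => ?_⟩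
    apply hza q hqE
    rw [segment_eq_image_lineMap] at hq
    obtain ⟨r, -, rfl⟩ := hq
    have hr : r ≠ 0 := by
      rintro rfl
      rw [AffineMap.lineMap_apply_zero] at hqE
      exact ha.2 hqE
    refine ⟨r⁻¹, ?_⟩
    simp only [AffineMap.lineMap_apply, vsub_eq_sub, vadd_eq_add, add_sub_cancel_right, smul_smul,
      inv_mul_cancel₀ hr, one_smul, sub_add_cancel]
  have hx1 : ∀ p ∈ E, z ∉ range (AffineMap.lineMap x p : ℝ → E2) := fun p hp =>
    hzT _ (Finset.mem_union_left _ (Finset.mem_image_of_mem _ (hE.mem_toFinset.mpr hp)))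
  have hy1 : ∀ p ∈ E, z ∉ range (AffineMap.lineMap y p : ℝ → E2) := fun p hp =>
    hzT _ (Finset.mem_union_right _ (Finset.mem_image_of_mem _ (hE.mem_toFinset.mpr hp)))
  refine ⟨segment ℝ x z ∪ segment ℝ y z, union_subset (hseg x hx hx1) (hseg y hy hy1),
    Or.inl (left_mem_segment ℝ x z), Or.inr (left_mem_segment ℝ y z), ?_⟩
  exact (convex_segment x z).isPreconnected.union z (right_mem_segment ℝ x z)
    (right_mem_segment ℝ y z) (convex_segment y z).isPreconnected

/-- away from finitely many points a finite family of segments is locally contained in a line -/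
theorem exists_exceptional (T : Finset (Set E2)) (hT : ∀ t ∈ T, IsClosed t)
    (hT2 : ∀ t ∈ T, Lin t) : ∃ E : Set E2, E.Finite ∧ ∀ w, w ∉ E → ∃ ε > 0, ∃ n : E2, n ≠ 0 ∧
      ∀ x ∈ ball w ε, ∀ t ∈ T, x ∈ t → inner ℝ (x - w) n = 0 := by
  classical
  refine ⟨⋃ t ∈ T, ⋃ t' ∈ T, {x | x ∈ t ∧ x ∈ t' ∧ (t ∩ t').Subsingleton}, ?_, ?_⟩
  · refine Set.Finite.biUnion T.finite_toSet fun t _ => ?_
    refine Set.Finite.biUnion T.finite_toSet fun t' _ => ?_
    refine Set.Subsingleton.finite ?_
    rintro x ⟨hx1, hx2, hx3⟩ y ⟨hy1, hy2, -⟩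
    exact hx3 ⟨hx1, hx2⟩ ⟨hy1, hy2⟩
  · intro w hw
    -- a ball avoiding the sets which do not contain `w`
    have hball : ∃ ε > 0, ∀ x ∈ ball w ε, ∀ t ∈ T, x ∈ t → w ∈ t := by
      have h1 : ∀ᶠ x in 𝓝 w, ∀ t ∈ T, x ∈ t → w ∈ t := by
        rw [Filter.eventually_all_finset]
        intro t ht
        by_cases hwt : w ∈ t
        · exact Eventually.of_forall fun _ _ => hwt
        · filter_upwards [(hT t ht).isOpen_compl.mem_nhds hwt] with x hx hxt
          exact absurd hxt hx
      exact Metric.mem_nhds_iff.mp h1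
    obtain ⟨ε, hε, hεT⟩ := hball
    by_cases hex : ∃ t ∈ T, w ∈ t
    · obtain ⟨t0, ht0, hwt0⟩ := hex
      have hns : ∀ t ∈ T, w ∈ t → ∃ u ∈ t, u ∈ t0 ∧ u ≠ w := by
        intro t ht hwt
        by_contra hcon
        push Not at hcon
        apply hw
        refine mem_iUnion₂.mpr ⟨t, ht, mem_iUnion₂.mpr ⟨t0, ht0, hwt, hwt0, ?_⟩⟩
        rintro x ⟨hx1, hx2⟩ y ⟨hy1, hy2⟩
        rw [hcon x hx1 hx2, hcon y hy1 hy2]
      obtain ⟨u, hu, -, huw⟩ := hns t0 ht0 hwt0
      have hv : u - w ≠ 0 := sub_ne_zero.mpr huw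
      refine ⟨ε, hε, !₂[-(u - w) 1, (u - w) 0], ?_, ?_⟩
      · intro h0
        apply hv
        have h1 := congrArg (fun v : E2 => v 0) h0
        have h2 := congrArg (fun v : E2 => v 1) h0
        simp at h1 h2
        ext i
        fin_cases i
        · simpa using h2
        · simp
          linarith
      · intro x hx t ht hxt
        have hwt := hεT x hx t ht hxt
        obtain ⟨u', hu', hu'0, hne⟩ := hns t ht hwt
        obtain ⟨r, hr⟩ := hT2 t ht w hwt u' hu' hne x hxt
        obtain ⟨r', hr'⟩ := hT2 t0 ht0 w hwt0 u hu huw u' hu'0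
        have h1 : x - w = (r * r') • (u - w) := by
          rw [hr, hr']
          simp only [AffineMap.lineMap_apply, vsub_eq_sub, vadd_eq_add, add_sub_cancel_right,
            smul_smul]
        rw [h1, inner_smul_left]
        have h2 : inner ℝ (u - w) (!₂[-(u - w) 1, (u - w) 0] : E2) = 0 := by
          simp [EuclideanSpace.inner_eq_star_dotProduct, Fin.sum_univ_two, dotProduct]
          ring
        rw [h2, mul_zero]
    · push Not at hex
      refine ⟨ε, hε, EuclideanSpace.single 0 1, ?_, ?_⟩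
      · intro h0
        have h1 := congrArg (fun v : E2 => v 0) h0
        simp at h1
      · intro x hx t ht hxt
        exact absurd (hεT x hx t ht hxt) (hex t ht)

end Pool.Agent.Hhelper79.Seam
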