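import Pool.Agent.Hhelper79.Seam.Sheet
import Pool.Agent.Hhelper79.Seam.Generic

/-!
# Seam patterns: no islands

A covered part of the hull of a sheet is joined to the outside of the hull: otherwise the paper above the closure `B` of the covered part
would be clopen in the paper (up to finitely many points).
-/

namespace Pool.Agent.Hhelper79.Seam

open Set Filter Topology Metric

variable {P : Set E2} {S : Set E3}

namespace Folding

variable (F : Folding P S)

/-- the paper near `y` lies above the paper near `w` -/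
def Up (w y : E2) : Prop :=
  ∀ᶠ q : E2 × E2 in 𝓝 (w, y), RegAt P F.f q.1 → RegAt P F.f q.2 → F.f q.1 = F.f q.2 →
    F.up q.2 q.1

/-- the paper near `y` lies below the paper near `w` -/
def Dn (w y : E2) : Prop :=
  ∀ᶠ q : E2 × E2 in 𝓝 (w, y), RegAt P F.f q.1 → RegAt P F.f q.2 → F.f q.1 = F.f q.2 →
    F.up q.1 q.2

theorem Up.eventually {w y : E2} (h : F.Up w y) : ∀ᶠ q : E2 × E2 in 𝓝 (w, y), F.Up q.1 q.2 :=
  eventually_eventually_nhds.mpr h

theorem Dn.eventually {w y : E2} (h : F.Dn w y) : ∀ᶠ q : E2 × E2 in 𝓝 (w, y), F.Dn q.1 q.2 :=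
  eventually_eventually_nhds.mpr h

/-- near `y` all the paper is over the disc at `w` -/
theorem near (hS : IsTarget S) {g : E2 →ᵃⁱ[ℝ] E3} {w y : E2} (hw : FlatAt P F.f g w) (hy : y ∈ P)
    (hwy : F.f y = F.f w) {r : ℝ} (hr : 0 < r) :
    ∀ᶠ y' in 𝓝[P] y, ∃ w' ∈ ball w r, g w' = F.f y' := by
  obtain ⟨r', hr', hball⟩ := Metric.eventually_nhds_iff_ball.mp hw
  have h1 : g '' ball w (min r r') ⊆ S := by
    rintro _ ⟨z, hz, rfl⟩
    have h2 := hball z (ball_subset_ball (min_le_right _ _) hz)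
    rw [← h2.2]
    exact F.mem_S h2.1
  have h2 := hS g w (min r r') (lt_min hr hr') h1
  have h3 : Tendsto F.f (𝓝[P] y) (𝓝[S] (g w)) := by
    rw [← hw.mem.2, ← hwy]
    exact tendsto_nhdsWithin_of_tendsto_nhds_of_eventually_within _ (F.continuousOn y hy)
      (eventually_nhdsWithin_of_forall fun z hz => F.mem_S hz)
  filter_upwards [h3.eventually h2] with y' hy'
  obtain ⟨w', hw', h⟩ := hy'
  exact ⟨w', ball_subset_ball (min_le_left _ _) hw', h⟩

/-- pairs of flat points exist near `(w, y)` -/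
theorem exists_pair' (hS : IsTarget S) {g : E2 →ᵃⁱ[ℝ] E3} {w y : E2} (hw : FlatAt P F.f g w)
    (hy : y ∈ P) (hwy : F.f y = F.f w) {Q : E2 × E2 → Prop} (hQ : ∀ᶠ q in 𝓝 (w, y), Q q) :
    ∃ w' y', Q (w', y') ∧ FlatAt P F.f g w' ∧ (∃ h, FlatAt P F.f h y') ∧ F.f w' = F.f y' := by
  obtain ⟨ε, hε, hQε⟩ := Metric.eventually_nhds_iff.mp
    (hQ.and (continuous_fst.tendsto (w, y) |>.eventually hw.eventually))
  have h1 := F.near hS hw hy hwy hε
  rw [eventually_nhdsWithin_iff] at h1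
  obtain ⟨y', hy', h, hflat⟩ := F.exists_flat hy (h1.and (ball_mem_nhds y hε))
  obtain ⟨w', hw', hgw⟩ := hy'.1 hflat.mem.1
  have h2 := hQε (y := (w', y')) (by
    rw [Prod.dist_eq]
    exact max_lt hw' hy'.2)
  refine ⟨w', y', h2.1, h2.2, ⟨h, hflat⟩, ?_⟩
  have h3 : F.f w' = g w' := h2.2.mem.2
  rw [h3, hgw]

/-- pairs of regular points exist near `(w, y)` -/
theorem exists_pair (hS : IsTarget S) {g : E2 →ᵃⁱ[ℝ] E3} {w y : E2} (hw : FlatAt P F.f g w)
    (hy : y ∈ P) (hwy : F.f y = F.f w) {Q : E2 × E2 → Prop} (hQ : ∀ᶠ q in 𝓝 (w, y), Q q) :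
    ∃ w' y', Q (w', y') ∧ RegAt P F.f w' ∧ RegAt P F.f y' ∧ F.f w' = F.f y' := by
  obtain ⟨w', y', h1, h2, ⟨h, h3⟩, h4⟩ := F.exists_pair' hS hw hy hwy hQ
  exact ⟨w', y', h1, h2.regAt, h3.regAt, h4⟩

/-- pairs of regular points exist near `(w, y)`, with the first point in a given dense open set -/
theorem exists_pair_dense (hS : IsTarget S) {g : E2 →ᵃⁱ[ℝ] E3} {w y : E2} (hw : FlatAt P F.f g w)
    (hy : y ∈ P) (hwy : F.f y = F.f w) {G : Set E2} (hG : w ∈ interior (closure G))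
    {Q : E2 × E2 → Prop} (hQ : ∀ᶠ q in 𝓝 (w, y), Q q) :
    ∃ w' y', Q (w', y') ∧ w' ∈ G ∧ RegAt P F.f w' ∧ RegAt P F.f y' ∧ F.f w' = F.f y' := by
  have h1 : ∀ᶠ q : E2 × E2 in 𝓝 (w, y), q.1 ∈ interior (closure G) :=
    (continuous_fst.tendsto (w, y)).eventually (isOpen_interior.mem_nhds hG)
  obtain ⟨w', y', ⟨hQ', hw'G⟩, hw', ⟨h, hy'⟩, hf⟩ :=
    F.exists_pair' hS hw hy hwy ((eventually_eventually_nhds.mpr hQ).and h1)
  have h2 : ∀ᶠ q : E2 × E2 in 𝓝 (w', y'), Q q ∧ FlatAt P F.f g q.1 ∧ FlatAt P F.f h q.2 :=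
    hQ'.and (((continuous_fst.tendsto (w', y')).eventually hw'.eventually).and
      ((continuous_snd.tendsto (w', y')).eventually hy'.eventually))
  obtain ⟨ε, hε, hQε⟩ := Metric.eventually_nhds_iff.mp h2
  have h3 := F.near hS hy' hw'.mem.1 hf hε
  rw [eventually_nhdsWithin_iff] at h3
  have h4 : w' ∈ closure G := interior_subset hw'G
  obtain ⟨u, ⟨⟨hu1, hu2⟩, hu3⟩, huG⟩ :=
    mem_closure_iff_nhds.mp h4 _ ((h3.and hw'.eventually).and (ball_mem_nhds w' hε))
  obtain ⟨v, hv, hvu⟩ := hu1 hu2.mem.1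
  have h5 := hQε (y := (u, v)) (by
    rw [Prod.dist_eq]
    exact max_lt hu3 hv)
  refine ⟨u, v, h5.1, huG, h5.2.1.regAt, h5.2.2.regAt, ?_⟩
  have h6 : F.f v = h v := h5.2.2.mem.2
  rw [h6, hvu]

theorem up_dn_false (hS : IsTarget S) {g : E2 →ᵃⁱ[ℝ] E3} {w y : E2} (hw : FlatAt P F.f g w)
    (hy : y ∈ P) (hwy : F.f y = F.f w) (h1 : F.Up w y) (h2 : F.Dn w y) : False := by
  obtain ⟨w', y', ⟨h3, h4⟩, hw', hy', h5⟩ := F.exists_pair hS hw hy hwy (h1.and h2)
  exact F.asymm y' w' hy' hw' h5.symm (h3 hw' hy' h5) (h4 hw' hy' h5)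

/-- the paper above `B` -/
def Om (g : E2 →ᵃⁱ[ℝ] E3) (B : Set E2) : Set E2 :=
  {y | ∃ w ∈ closure B, F.f y = g w ∧ y ≠ w ∧ F.Up w y}

theorem om_const (hS : IsTarget S) (g : E2 →ᵃⁱ[ℝ] E3) (B Ex : Set E2)
    (hcl : ∀ w ∈ closure B, w ∉ Ex → w ∈ F.K g)
    (hloc : ∀ w ∈ closure B, w ∉ Ex → ∀ᶠ w' in 𝓝 w, w' ∈ closure B ∨ w' ∈ F.W g)
    {y : E2} (hy : y ∈ P) (hyE : F.f y ∉ g '' Ex) :
    ∀ᶠ y' in 𝓝[P] y, (y ∈ F.Om g B ↔ y' ∈ F.Om g B) := by
  by_cases hyO : y ∈ F.Om g B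
  · obtain ⟨w, hw, hyw, hne, hup⟩ := hyO
    have hwE : w ∉ Ex := fun h => hyE ⟨w, h, hyw.symm⟩
    have hwK := hcl w hw hwE
    have hwf := F.flat_of_mem_K hwK
    have hfw : F.f y = F.f w := by rw [hyw, hwf.mem.2]
    have h1 : ∀ᶠ q : E2 × E2 in 𝓝 (w, y), F.Up q.1 q.2 ∧ q.2 ≠ q.1 ∧
        (q.1 ∈ closure B ∨ q.1 ∈ F.W g) ∧ FlatAt P F.f g q.1 := by
      have h2 : ∀ᶠ q : E2 × E2 in 𝓝 (w, y), q.2 ≠ q.1 :=
        (isOpen_ne_fun continuous_snd continuous_fst).mem_nhds hne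
      have h3 : ∀ᶠ q : E2 × E2 in 𝓝 (w, y), (q.1 ∈ closure B ∨ q.1 ∈ F.W g) :=
        (continuous_fst.tendsto (w, y)).eventually (hloc w hw hwE)
      have h4 : ∀ᶠ q : E2 × E2 in 𝓝 (w, y), FlatAt P F.f g q.1 :=
        (continuous_fst.tendsto (w, y)).eventually hwf.eventually
      filter_upwards [hup.eventually, h2, h3, h4] with q hq1 hq2 hq3 hq4
      exact ⟨hq1, hq2, hq3, hq4⟩
    obtain ⟨ε, hε, hQε⟩ := Metric.eventually_nhds_iff.mp h1
    filter_upwards [F.near hS hwf hy hfw hε, self_mem_nhdsWithin,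
      mem_nhdsWithin_of_mem_nhds (ball_mem_nhds y hε)] with y' hy1 hy2 hy3
    obtain ⟨w', hw', hgw⟩ := hy1
    obtain ⟨hq1, hq2, hq3, hq4⟩ := hQε (y := (w', y')) (by
      rw [Prod.dist_eq]
      exact max_lt hw' hy3)
    refine iff_of_true ⟨w, hw, hyw, hne, hup⟩ ?_
    rcases hq3 with hq3 | hq3
    · exact ⟨w', hq3, hgw.symm, hq2, hq1⟩
    · exfalso
      have h5 : F.f y' = F.f w' := by
        have h6 : F.f w' = g w' := hq4.mem.2
        rw [h6, hgw]
      have h6 : ∀ᶠ q : E2 × E2 in 𝓝 (w', y'), q.2 ≠ q.1 :=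
        (isOpen_ne_fun continuous_snd continuous_fst).mem_nhds hq2
      have h7 : ∀ᶠ q : E2 × E2 in 𝓝 (w', y'), q.1 ∈ F.W g :=
        (continuous_fst.tendsto (w', y')).eventually ((F.isOpen_W g).mem_nhds hq3)
      obtain ⟨w'', y'', ⟨⟨h8, h9⟩, h10⟩, hw'', hy'', h11⟩ :=
        F.exists_pair hS hq4 hy2 h5 ((hq1.and h6).and h7)
      exact F.asymm w'' y'' hw'' hy'' h11 (F.up_of_W h10 hy'' h9 h11.symm) (h8 hw'' hy'' h11)
  · by_cases hex : ∃ w ∈ closure B, F.f y = g w
    · obtain ⟨w, hw, hyw⟩ := hex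
      have hwE : w ∉ Ex := fun h => hyE ⟨w, h, hyw.symm⟩
      have hwK := hcl w hw hwE
      have hwf := F.flat_of_mem_K hwK
      have hfw : F.f y = F.f w := by rw [hyw, hwf.mem.2]
      by_cases hne : y = w
      · subst hne
        filter_upwards [mem_nhdsWithin_of_mem_nhds ((F.isOpen_K g).mem_nhds hwK)] with y' hy'
        refine iff_of_false hyO ?_
        rintro ⟨w', _, h1, h2, _⟩
        apply h2
        apply g.injective
        rw [← h1]
        exact (F.f_of_mem_K hy').symm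
      · have hdn : F.Dn w y := by
          rcases F.tortilla w y hwf.regAt hy hne hfw with h1 | h1
          · exact h1
          · exact absurd ⟨w, hw, hyw, hne, h1⟩ hyO
        have h1 : ∀ᶠ q : E2 × E2 in 𝓝 (w, y), F.Dn q.1 q.2 ∧ FlatAt P F.f g q.1 :=
          hdn.eventually.and ((continuous_fst.tendsto (w, y)).eventually hwf.eventually)
        obtain ⟨ε, hε, hQε⟩ := Metric.eventually_nhds_iff.mp h1
        have h2 : ∀ᶠ y' in 𝓝[P] y, F.f y' ∈ ball (F.f y) ε :=
          (F.continuousOn y hy).eventually (ball_mem_nhds _ hε)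
        filter_upwards [h2, self_mem_nhdsWithin,
          mem_nhdsWithin_of_mem_nhds (ball_mem_nhds y hε)] with y' hy1 hy2 hy3
        refine iff_of_false hyO ?_
        rintro ⟨w', hw', h3, h4, h5⟩
        obtain ⟨h6, h7⟩ := hQε (y := (w', y')) (by
          rw [Prod.dist_eq]
          refine max_lt ?_ hy3
          rw [← g.dist_map, ← h3, ← hyw]
          exact hy1)
        have h7' : FlatAt P F.f g w' := h7
        exact F.up_dn_false hS h7' hy2 (by rw [h3, h7'.mem.2]) h5 h6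
    · have h1 : IsClosed (g '' closure B) := g.isometry.isClosedEmbedding.isClosedMap _ isClosed_closure
      have h2 : F.f y ∈ (g '' closure B)ᶜ := by
        rintro ⟨w, hw, h⟩
        exact hex ⟨w, hw, h.symm⟩
      filter_upwards [(F.continuousOn y hy).eventually (h1.isOpen_compl.mem_nhds h2)] with y' hy'
      refine iff_of_false hyO ?_
      rintro ⟨w', hw', h3, _⟩
      exact hy' ⟨w', hw', h3.symm⟩

theorem island_aux (hS : IsTarget S) (g : E2 →ᵃⁱ[ℝ] E3) (B Ex : Set E2) (hEx : Ex.Finite)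
    (hcl : ∀ w ∈ closure B, w ∉ Ex → w ∈ F.K g)
    (hloc : ∀ w ∈ closure B, w ∉ Ex → ∀ᶠ w' in 𝓝 w, w' ∈ closure B ∨ w' ∈ F.W g)
    {x x' : E2} (hx : x ∈ B) (hxK : x ∈ F.K g) (hxE : x ∉ Ex) (hx' : RegAt P F.f x')
    (htop : F.TopAt x') (hne : x' ≠ x) (hf : F.f x' = F.f x) : False := by
  have hfin : {y | y ∈ P ∧ F.f y ∈ g '' Ex}.Finite := by
    refine (Set.Finite.biUnion hEx fun e _ => F.finite_fibre (g e)).subset ?_
    rintro y ⟨hy, e, he, hge⟩
    exact mem_iUnion₂.mpr ⟨e, he, hy, hge.symm⟩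
  have hconn := preconnected_diff F.convexP F.paper.2 hfin
  have hP' : ∀ y ∈ P \ {y | y ∈ P ∧ F.f y ∈ g '' Ex}, F.f y ∉ g '' Ex := fun y hy h =>
    hy.2 ⟨hy.1, h⟩
  have hxP : x ∈ P := (F.K_subset g hxK).1
  have hx'P : x' ∈ P := by
    obtain ⟨U, hU, hUP, _⟩ := hx'
    exact hUP (mem_of_mem_nhds hU)
  have hfx : F.f x = g x := F.f_of_mem_K hxK
  have hgx : g x ∉ g '' Ex := by
    rintro ⟨e, he, h⟩
    rw [g.injective h] at he
    exact hxE he
  have hx1 : x ∈ P \ {y | y ∈ P ∧ F.f y ∈ g '' Ex} := ⟨hxP, fun h => hgx (hfx ▸ h.2)⟩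
  have hx2 : x' ∈ P \ {y | y ∈ P ∧ F.f y ∈ g '' Ex} := ⟨hx'P, fun h => hgx (hfx ▸ hf ▸ h.2)⟩
  have hmain := hconn.induction₂ (fun a b => a ∈ F.Om g B ↔ b ∈ F.Om g B)
    (fun a ha => nhdsWithin_mono a sdiff_subset (F.om_const hS g B Ex hcl hloc ha.1 (hP' a ha)))
    (fun a b c _ _ _ h1 h2 => h1.trans h2) (fun a b _ _ h1 => h1.symm) hx2 hx1
  have h1 : x' ∈ F.Om g B := by
    refine ⟨x, subset_closure hx, by rw [hf, hfx], hne, ?_⟩
    rcases F.tortilla x x' (F.reg_of_mem_K hxK) hx'P hne hf with h | h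
    · exfalso
      have h2 := h.self_of_nhds (F.reg_of_mem_K hxK) hx' hf.symm
      exact F.asymm x x' (F.reg_of_mem_K hxK) hx' hf.symm h2
        (htop.self_of_nhds x (F.reg_of_mem_K hxK) hne.symm hf.symm)
    · exact h
  obtain ⟨w, hw, h2, h3, h4⟩ := hmain.mp h1
  exact h3 (g.injective (by rw [← h2, hfx]))

/-- away from the seams the visible part is closed -/
theorem mem_W_of_closure (hS : IsTarget S) {g : E2 →ᵃⁱ[ℝ] E3} {w : E2}
    (hw : w ∈ closure (F.W g)) (hD : g w ∉ F.seams) : w ∈ F.W g := by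
  have hclosed : IsClosed {x | x ∈ P ∧ F.f x = g x} := by
    have h1 : ContinuousOn (fun x => (F.f x, g x)) P :=
      F.continuousOn.prodMk g.continuous.continuousOn
    have h2 := h1.preimage_isClosed_of_isClosed F.compactP.isClosed
      (isClosed_eq continuous_fst continuous_snd : IsClosed {p : E3 × E3 | p.1 = p.2})
    exact h2
  have hw1 : w ∈ {x | x ∈ P ∧ F.f x = g x} :=
    closure_minimal ((F.W_subset_K g).trans (F.K_subset g)) hclosed hw
  have hwS : g w ∈ S \ F.seams := ⟨hw1.2 ▸ F.mem_S hw1.1, hD⟩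
  obtain ⟨h, x, hx, hfx⟩ := F.mem_diff_iff.mp hwS
  have h1 := F.same_local hS hx
  rw [hfx] at h1
  have h2 : Tendsto g (𝓝[F.W g] w) (𝓝[S] (g w)) := by
    refine tendsto_nhdsWithin_of_tendsto_nhds_of_eventually_within _
      (g.continuous.continuousAt.tendsto.mono_left nhdsWithin_le_nhds)
      (eventually_nhdsWithin_of_forall fun z hz => ?_)
    rw [← hz.1.mem.2]
    exact F.mem_S hz.1.mem.1
  have : (𝓝[F.W g] w).NeBot := mem_closure_iff_nhdsWithin_neBot.mp hw
  obtain ⟨u, hu1, hu2⟩ := ((h2.eventually h1).and self_mem_nhdsWithin).exists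
  obtain ⟨y, hy, hyu⟩ := hu1
  obtain ⟨-, rfl⟩ := F.W_unique hu2 hy (by rw [hyu, hu2.1.mem.2])
  have h3 : x = w := g.injective (by rw [← hx.1.mem.2, hfx])
  rwa [h3] at hx

/-- no slits: the visible part is regular open -/
theorem interior_closure_W (hS : IsTarget S) (g : E2 →ᵃⁱ[ℝ] E3) :
    interior (closure (F.W g)) = F.W g := by
  refine subset_antisymm ?_ (interior_maximal subset_closure (F.isOpen_W g))
  intro w hw
  have hne : (F.K g).Nonempty := by
    obtain ⟨x, hx⟩ := closure_nonempty_iff.mp ⟨w, interior_subset hw⟩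
    exact ⟨x, F.W_subset_K g hx⟩
  have hsubK : interior (closure (F.W g)) ⊆ F.K g := by
    intro z hz
    have h1 : z ∈ interior (closure (F.K g)) :=
      interior_mono (closure_mono (F.W_subset_K g)) hz
    rw [(F.convex_K g).interior_closure_eq_interior_of_nonempty_interior (by
      rwa [(F.isOpen_K g).interior_eq]), (F.isOpen_K g).interior_eq] at h1
    exact h1
  refine ⟨F.flat_of_mem_K (hsubK hw), ?_⟩
  filter_upwards [isOpen_interior.mem_nhds hw] with z hz
  intro y hy hyz hf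
  have hzf := F.flat_of_mem_K (hsubK hz)
  have hyP : y ∈ P := by
    obtain ⟨U, hU, hUP, _⟩ := hy
    exact hUP (mem_of_mem_nhds hU)
  rcases F.tortilla z y hzf.regAt hyP hyz hf with h | h
  · exact h.self_of_nhds hzf.regAt hy hf.symm
  · exfalso
    have h6 : ∀ᶠ q : E2 × E2 in 𝓝 (z, y), q.2 ≠ q.1 :=
      (isOpen_ne_fun continuous_snd continuous_fst).mem_nhds hyz
    obtain ⟨w', y', ⟨h7, h8⟩, hG, hw', hy', h9⟩ :=
      F.exists_pair_dense hS hzf hyP hf hz (h.and h6)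
    exact F.asymm w' y' hw' hy' h9 (F.up_of_W hG hy' h8 h9.symm) (h7 hw' hy' h9)

end Folding

/-- an open half disc -/
def half (w n : E2) (ε : ℝ) : Set E2 := {x | x ∈ ball w ε ∧ 0 < inner ℝ (x - w) n}

theorem half_convex (w n : E2) (ε : ℝ) : Convex ℝ (half w n ε) := by
  have h1 : half w n ε = ball w ε ∩ {x : E2 | inner ℝ w n < inner ℝ x n} := by
    ext x
    simp [half, inner_sub_left]
  rw [h1]
  exact (convex_ball w ε).inter (convex_halfSpace_gt (f := fun x : E2 => (inner ℝ x n : ℝ))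
    ⟨fun x y => inner_add_left x y n, fun c x => by simp [inner_smul_left]⟩ _)

theorem isClosed_seg (a b : E3) : IsClosed (segment ℝ a b) := by
  rw [← convexHull_pair]
  exact ((Set.toFinite {a, b}).isCompact_convexHull ℝ).isClosed

theorem half_point {w n : E2} (hn : n ≠ 0) {ε : ℝ} (hε : 0 < ε) :
    w + (ε / (2 * ‖n‖)) • n ∈ half w n ε := by
  have hn' : 0 < ‖n‖ := norm_pos_iff.mpr hn
  constructor
  · rw [mem_ball, dist_eq_norm, add_sub_cancel_left, norm_smul, Real.norm_of_nonneg (by positivity)]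
    have h1 : ε / (2 * ‖n‖) * ‖n‖ = ε / 2 := by
      field_simp
    rw [h1]
    linarith
  · rw [add_sub_cancel_left, inner_smul_left, real_inner_self_eq_norm_sq]
    simp only [conj_trivial]
    positivity

theorem half_closure {w n w' : E2} (hn : n ≠ 0) {ε : ℝ} (hw' : w' ∈ ball w ε)
    (h0 : inner ℝ (w' - w) n = 0) : w' ∈ closure (half w n ε) := by
  have h1 : Tendsto (fun t : ℝ => w' + t • n) (𝓝[>] 0) (𝓝 w') := by
    have h2 : Continuous (fun t : ℝ => w' + t • n) := by fun_prop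
    have h3 := (h2.tendsto 0).mono_left (nhdsWithin_le_nhds (s := Ioi 0))
    simpa using h3
  refine mem_closure_of_tendsto h1 ?_
  filter_upwards [h1.eventually (isOpen_ball.mem_nhds hw'), self_mem_nhdsWithin] with t ht1 ht2
  refine ⟨ht1, ?_⟩
  have h4 : w' + t • n - w = (w' - w) + t • n := by abel
  rw [h4, inner_add_left, h0, zero_add, inner_smul_left, real_inner_self_eq_norm_sq]
  simp only [conj_trivial]
  have hn' : 0 < ‖n‖ := norm_pos_iff.mpr hn
  have ht : 0 < t := ht2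
  positivity

theorem line_interior {w n : E2} (hn : n ≠ 0) : interior {x : E2 | inner ℝ (x - w) n = 0} = ∅ := by
  rw [eq_empty_iff_forall_notMem]
  intro x hx
  obtain ⟨ε, hε, hball⟩ := Metric.mem_nhds_iff.mp (mem_interior_iff_mem_nhds.mp hx)
  have h1 := half_point (w := x) hn hε
  have h2 := hball h1.1
  have h3 : inner ℝ (x - w) n = 0 := hball (mem_ball_self hε)
  have h4 : inner ℝ (x + (ε / (2 * ‖n‖)) • n - w) n = 0 := h2
  have h5 : x + (ε / (2 * ‖n‖)) • n - w = (x - w) + (x + (ε / (2 * ‖n‖)) • n - x) := by abel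
  rw [h5, inner_add_left, h3, zero_add] at h4
  exact h1.2.ne' h4

/-- an open set near `w` has points off the line -/
theorem exists_off {w n : E2} (hn : n ≠ 0) {ε : ℝ} (hε : 0 < ε) {G : Set E2} (hG : IsOpen G)
    (hw : w ∈ closure G) : ∃ x ∈ G, x ∈ ball w ε ∧ inner ℝ (x - w) n ≠ 0 := by
  by_contra hcon
  push Not at hcon
  have h1 : (ball w ε ∩ G).Nonempty :=
    mem_closure_iff.mp hw _ isOpen_ball (mem_ball_self hε)
  obtain ⟨x, hx1, hx2⟩ := h1
  have h2 : x ∈ interior {x : E2 | inner ℝ (x - w) n = 0} :=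
    interior_maximal (s := {x : E2 | inner ℝ (x - w) n = 0}) (fun y hy => hcon y hy.2 hy.1)
      (isOpen_ball.inter hG) ⟨hx1, hx2⟩
  rw [line_interior hn] at h2
  exact h2

namespace Folding

variable (F : Folding P S)

/-- the half discs at a boundary point of a covered component -/
theorem half_discs (hS : IsTarget S) {g : E2 →ᵃⁱ[ℝ] E3} {q w n : E2} {ε : ℝ} (hε : 0 < ε)
    (hn : n ≠ 0) (hline : ∀ x ∈ ball w ε, g x ∈ F.seams → inner ℝ (x - w) n = 0)
    (hwB : w ∈ closure (connectedComponentIn (closure (F.W g))ᶜ q))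
    (hwB' : w ∉ connectedComponentIn (closure (F.W g))ᶜ q) :
    ∃ n' : E2, n' ≠ 0 ∧ (∀ x, inner ℝ (x - w) n' = 0 ↔ inner ℝ (x - w) n = 0) ∧
      half w n' ε ⊆ connectedComponentIn (closure (F.W g))ᶜ q ∧ half w (-n') ε ⊆ F.W g := by
  set B := connectedComponentIn (closure (F.W g))ᶜ q with hB
  have hBo : IsOpen B := isClosed_closure.isOpen_compl.connectedComponentIn
  have hBW : Disjoint B (F.W g) := by
    rw [Set.disjoint_left]
    intro x hx hxW
    exact connectedComponentIn_subset _ _ hx (subset_closure hxW)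
  have hsub : ∀ U : Set E2, IsPreconnected U → U ⊆ (closure (F.W g))ᶜ → (U ∩ B).Nonempty → U ⊆ B := by
    intro U hU hUW hne
    obtain ⟨x, hxU, hxB⟩ := hne
    have h1 := hU.subset_connectedComponentIn hxU hUW
    rwa [← connectedComponentIn_eq hxB] at h1
  have hdich : ∀ m : E2, (∀ x, inner ℝ (x - w) m = 0 → inner ℝ (x - w) n = 0) →
      (∀ x, inner ℝ (x - w) n = 0 → inner ℝ (x - w) m = 0) →
      half w m ε ⊆ F.W g ∨ half w m ε ⊆ (closure (F.W g))ᶜ := by
    intro m _ hm2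
    refine IsPreconnected.subset_or_subset (F.isOpen_W g) isClosed_closure.isOpen_compl ?_ ?_
      (half_convex w m ε).isPreconnected
    · rw [Set.disjoint_left]
      intro x hx hx2
      exact hx2 (subset_closure hx)
    · intro x hx
      by_cases hxc : x ∈ closure (F.W g)
      · left
        refine F.mem_W_of_closure hS hxc fun hD => ?_
        exact hx.2.ne' (hm2 x (hline x hx.1 hD))
      · exact Or.inr hxc
  have hwW : w ∈ closure (F.W g) := by
    by_contra hcon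
    have h1 : IsOpen (connectedComponentIn (closure (F.W g))ᶜ w) :=
      isClosed_closure.isOpen_compl.connectedComponentIn
    have h2 : w ∈ connectedComponentIn (closure (F.W g))ᶜ w := mem_connectedComponentIn hcon
    obtain ⟨x, hx1, hx2⟩ := mem_closure_iff.mp hwB _ h1 h2
    have h3 := connectedComponentIn_eq hx1
    have h4 := connectedComponentIn_eq hx2
    apply hwB'
    rw [hB, h4, ← h3]
    exact h2
  -- the side of `B`
  obtain ⟨x, hxB, hxb, hxn⟩ := exists_off hn hε hBo hwB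
  obtain ⟨n', hn', hiff, hx0⟩ : ∃ n' : E2, n' ≠ 0 ∧
      (∀ x, inner ℝ (x - w) n' = 0 ↔ inner ℝ (x - w) n = 0) ∧ 0 < inner ℝ (x - w) n' := by
    rcases lt_or_gt_of_ne hxn with h | h
    · refine ⟨-n, neg_ne_zero.mpr hn, fun y => ?_, ?_⟩
      · rw [inner_neg_right, neg_eq_zero]
      · rw [inner_neg_right]
        linarith
    · exact ⟨n, hn, fun y => Iff.rfl, h⟩
  have hU1 : half w n' ε ⊆ B := by
    have h1 : (half w n' ε ∩ B).Nonempty := ⟨x, ⟨hxb, hx0⟩, hxB⟩
    rcases hdich n' (fun y h => (hiff y).mp h) (fun y h => (hiff y).mpr h) with h | h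
    · exact absurd (h h1.choose_spec.1) (Set.disjoint_left.mp hBW h1.choose_spec.2)
    · exact hsub _ (half_convex w n' ε).isPreconnected h h1
  refine ⟨n', hn', hiff, hU1, ?_⟩
  obtain ⟨z, hzW, hzb, hzn⟩ := exists_off hn' hε (F.isOpen_W g) hwW
  have hz0 : 0 < inner ℝ (z - w) (-n') := by
    rw [inner_neg_right]
    rcases lt_or_gt_of_ne hzn with h | h
    · linarith
    · exact absurd hzW (Set.disjoint_left.mp hBW (hU1 ⟨hzb, h⟩))
  rcases hdich (-n') (fun y h => (hiff y).mp (by rwa [inner_neg_right, neg_eq_zero] at h))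
    (fun y h => by rw [inner_neg_right, neg_eq_zero]; exact (hiff y).mpr h) with h | h
  · exact h
  · exact absurd (subset_closure hzW) (h ⟨hzb, hz0⟩)

/-- no islands, in the paper -/
theorem not_island (hS : IsTarget S) (T : Finset (Set E3)) (hT : ∀ t ∈ T, ∃ a b, t = segment ℝ a b)
    (hD : F.seams = ⋃ t ∈ T, t) {g : E2 →ᵃⁱ[ℝ] E3} {q : E2}
    (hq' : q ∉ closure (F.W g)) :
    ¬ connectedComponentIn (closure (F.W g))ᶜ q ⊆ F.K g := by
  classical
  intro hBK
  set B := connectedComponentIn (closure (F.W g))ᶜ q with hB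
  have hBo : IsOpen B := isClosed_closure.isOpen_compl.connectedComponentIn
  have hqB : q ∈ B := mem_connectedComponentIn hq'
  set T' : Finset (Set E2) := T.image (fun t => g ⁻¹' t) with hT'
  have hT1 : ∀ t ∈ T', IsClosed t := by
    intro t ht
    obtain ⟨s, hs, rfl⟩ := Finset.mem_image.mp ht
    obtain ⟨a, b, rfl⟩ := hT s hs
    exact (isClosed_seg a b).preimage g.continuous
  have hT2 : ∀ t ∈ T', Lin t := by
    intro t ht
    obtain ⟨s, hs, rfl⟩ := Finset.mem_image.mp ht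
    obtain ⟨a, b, rfl⟩ := hT s hs
    exact (lin_segment a b).preimage g
  have hseam : ∀ x, g x ∈ F.seams → ∃ t ∈ T', x ∈ t := by
    intro x hx
    rw [hD] at hx
    obtain ⟨t, ht, hxt⟩ := mem_iUnion₂.mp hx
    exact ⟨g ⁻¹' t, Finset.mem_image_of_mem _ ht, hxt⟩
  obtain ⟨Ex, hEx, hExp⟩ := exists_exceptional T' hT1 hT2
  have hdisc : ∀ w ∈ closure B, w ∉ B → w ∉ Ex → ∃ n' : E2, n' ≠ 0 ∧ ∃ ε > 0,
      half w n' ε ⊆ B ∧ half w (-n') ε ⊆ F.W g := by
    intro w hw hwB hwE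
    obtain ⟨ε, hε, n, hn, hline⟩ := hExp w hwE
    obtain ⟨n', hn', -, h1, h2⟩ := F.half_discs hS hε hn (fun x hx hxD => by
      obtain ⟨t, ht, hxt⟩ := hseam x hxD
      exact hline x hx t ht hxt) hw hwB
    exact ⟨n', hn', ε, hε, h1, h2⟩
  have hcl : ∀ w ∈ closure B, w ∉ Ex → w ∈ F.K g := by
    intro w hw hwE
    by_cases hwB : w ∈ B
    · exact hBK hwB
    · obtain ⟨n', hn', ε, hε, h1, h2⟩ := hdisc w hw hwB hwE
      have h3 := hBK (h1 (half_point hn' hε))
      have h4 := F.W_subset_K g (h2 (half_point (neg_ne_zero.mpr hn') hε))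
      have h5 := (F.convex_K g) h3 h4 (by norm_num : (0 : ℝ) ≤ 1 / 2) (by norm_num : (0 : ℝ) ≤ 1 / 2)
        (by norm_num)
      convert h5 using 1
      rw [norm_neg, smul_neg, ← smul_add, add_add_add_comm, add_neg_cancel, add_zero, ← two_smul ℝ w,
        smul_smul]
      norm_num
  have hloc : ∀ w ∈ closure B, w ∉ Ex → ∀ᶠ w' in 𝓝 w, w' ∈ closure B ∨ w' ∈ F.W g := by
    intro w hw hwE
    by_cases hwB : w ∈ B
    · filter_upwards [hBo.mem_nhds hwB] with w' hw'
      exact Or.inl (subset_closure hw')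
    · obtain ⟨n', hn', ε, hε, h1, h2⟩ := hdisc w hw hwB hwE
      filter_upwards [ball_mem_nhds w hε] with w' hw'
      rcases lt_trichotomy (inner ℝ (w' - w) n') 0 with h3 | h3 | h3
      · right
        refine h2 ⟨hw', ?_⟩
        rw [inner_neg_right]
        linarith
      · left
        exact closure_mono h1 (half_closure hn' hw' h3)
      · left
        exact subset_closure (h1 ⟨hw', h3⟩)
  obtain ⟨x, hxB, hxT⟩ := exists_outside hBo ⟨q, hqB⟩ (insert Ex T') (by
    intro t ht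
    rcases Finset.mem_insert.mp ht with rfl | h
    · exact hEx.isClosed
    · exact hT1 t h) (by
    intro t ht
    rcases Finset.mem_insert.mp ht with rfl | h
    · exact finite_interior hEx
    · exact (hT2 t h).interior_eq)
  have hxE : x ∉ Ex := hxT Ex (Finset.mem_insert_self _ _)
  have hxD : g x ∉ F.seams := by
    intro h
    obtain ⟨t, ht, hxt⟩ := hseam x h
    exact hxT t (Finset.mem_insert_of_mem ht) hxt
  have hxK := hBK hxB
  have hxS : g x ∈ S \ F.seams := by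
    refine ⟨?_, hxD⟩
    rw [← F.f_of_mem_K hxK]
    exact F.mem_S (F.K_subset g hxK).1
  obtain ⟨h, x', hx', hfx⟩ := F.mem_diff_iff.mp hxS
  have hne : x' ≠ x := by
    rintro rfl
    have h1 : g = h := (F.flat_of_mem_K hxK).unique hx'.1
    subst h1
    exact connectedComponentIn_subset _ _ hxB (subset_closure hx')
  exact F.island_aux hS g B Ex hEx hcl hloc hxB hxK hxE hx'.1.regAt hx'.2 hne
    (by rw [hfx, F.f_of_mem_K hxK])

end Folding

end Pool.Agent.Hhelper79.Seam
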