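import Pool.Agent.Hhelper79.Seam.Island

/-!
# Seam patterns: regions, colours, stackings
-/

namespace Pool.Agent.Hhelper79.Seam

open Set Filter Topology Metric

variable {P : Set E2} {S : Set E3}

/-- a bounded component of the complement of the closure of an open set lies in its convex hull -/
theorem bounded_subset_hull {R : Set E2} (hR : IsOpen R) (hne : R.Nonempty) {q : E2}
    (hb : Bornology.IsBounded (connectedComponentIn (closure R)ᶜ q)) :
    connectedComponentIn (closure R)ᶜ q ⊆ convexHull ℝ R := by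
  set V := connectedComponentIn (closure R)ᶜ q with hV
  have hVo : IsOpen V := isClosed_closure.isOpen_compl.connectedComponentIn
  have hsub : V ⊆ closure (convexHull ℝ R) := by
    intro v hv
    by_contra hcon
    obtain ⟨φ, c, hφ1, hφ2⟩ := geometric_hahn_banach_closed_point
      ((convex_convexHull ℝ R).closure) isClosed_closure hcon
    -- a ray from `v`
    have hdir : ∃ d : E2, 0 < φ d := by
      by_contra hno
      push Not at hno
      obtain ⟨r, hr⟩ := hne
      have h1 := hφ1 r (subset_closure (subset_convexHull ℝ R hr))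
      have h2 := hno (v - r)
      rw [map_sub] at h2
      linarith
    obtain ⟨d, hd⟩ := hdir
    have hray : (fun t : ℝ => v + t • d) '' Ici 0 ⊆ V := by
      have h1 : IsPreconnected ((fun t : ℝ => v + t • d) '' Ici 0) :=
        isPreconnected_Ici.image _ (by fun_prop)
      have h2 : v ∈ (fun t : ℝ => v + t • d) '' Ici 0 := ⟨0, by simp, by simp⟩
      have h3 : (fun t : ℝ => v + t • d) '' Ici 0 ⊆ (closure R)ᶜ := by
        rintro _ ⟨t, ht, rfl⟩ h4
        have h5 := hφ1 _ (closure_mono (subset_convexHull ℝ R) h4)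
        rw [map_add, map_smul, smul_eq_mul] at h5
        have ht' : (0 : ℝ) ≤ t := ht
        have h6 := mul_nonneg ht' hd.le
        linarith
      have h4 := h1.subset_connectedComponentIn h2 h3
      rwa [← connectedComponentIn_eq hv] at h4
    have hd0 : d ≠ 0 := by
      rintro rfl
      simp at hd
    obtain ⟨C, hC⟩ := (hb.subset hray).exists_norm_le
    have h1 : ∀ t : ℝ, 0 ≤ t → ‖v + t • d‖ ≤ C := fun t ht => hC _ ⟨t, ht, rfl⟩
    have hdn : 0 < ‖d‖ := norm_pos_iff.mpr hd0
    have hC0 : 0 ≤ C := (norm_nonneg _).trans (h1 0 le_rfl)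
    have h2 := h1 ((C + ‖v‖ + 1) / ‖d‖) (by positivity)
    have h3 : ‖((C + ‖v‖ + 1) / ‖d‖) • d‖ = C + ‖v‖ + 1 := by
      rw [norm_smul, Real.norm_of_nonneg (by positivity), div_mul_cancel₀ _ hdn.ne']
    have h4 : ‖((C + ‖v‖ + 1) / ‖d‖) • d‖ ≤ ‖v + ((C + ‖v‖ + 1) / ‖d‖) • d‖ + ‖v‖ := by
      have h5 : ((C + ‖v‖ + 1) / ‖d‖) • d = (v + ((C + ‖v‖ + 1) / ‖d‖) • d) - v := by abel
      calc ‖((C + ‖v‖ + 1) / ‖d‖) • d‖ = ‖(v + ((C + ‖v‖ + 1) / ‖d‖) • d) - v‖ := by rw [← h5]
        _ ≤ _ := norm_sub_le _ _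
    linarith
  have h1 : V ⊆ interior (closure (convexHull ℝ R)) := interior_maximal hsub hVo
  rwa [(convex_convexHull ℝ R).interior_closure_eq_interior_of_nonempty_interior (by
    rw [hR.convexHull.interior_eq]
    exact hne.mono (subset_convexHull ℝ R)), hR.convexHull.interior_eq] at h1

/-- the boundary of a bounded nonempty open set of the plane is not finite -/
theorem frontier_not_finite {V : Set E2} (hV : IsOpen V) (hne : V.Nonempty)
    (hb : Bornology.IsBounded V) {E : Set E2} (hE : E.Finite) : ∃ w ∈ closure V, w ∉ V ∧ w ∉ E := by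
  by_contra hcon
  push Not at hcon
  have h1 : IsPreconnected ((univ : Set E2) \ E) :=
    preconnected_diff convex_univ (by simp) hE
  have h2 : (univ : Set E2) \ E ⊆ V ∪ (closure V)ᶜ := by
    rintro x ⟨-, hx⟩
    by_cases h : x ∈ closure V
    · by_contra h3
      exact hx (hcon x h fun h4 => h3 (Or.inl h4))
    · exact Or.inr h
  have h3 : Disjoint V (closure V)ᶜ := by
    rw [Set.disjoint_left]
    intro x hx hx2
    exact hx2 (subset_closure hx)
  have hEi := finite_interior hE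
  rcases IsPreconnected.subset_or_subset hV isClosed_closure.isOpen_compl h3 h2 h1 with h | h
  · -- the complement of the closure is empty
    have h4 : (closure V)ᶜ ⊆ interior E := by
      refine interior_maximal ?_ isClosed_closure.isOpen_compl
      intro x hx
      by_contra hxE
      exact hx (subset_closure (h ⟨mem_univ x, hxE⟩))
    rw [hEi, subset_empty_iff, compl_empty_iff] at h4
    have h5 := hb.closure
    rw [h4] at h5
    exact NormedSpace.unbounded_univ ℝ E2 h5
  · have h4 : V ⊆ interior E := by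
      refine interior_maximal ?_ hV
      intro x hx
      by_contra hxE
      exact h ⟨mem_univ x, hxE⟩ (subset_closure hx)
    rw [hEi, subset_empty_iff] at h4
    rw [h4] at hne
    exact not_nonempty_empty hne

namespace Folding

variable (F : Folding P S)

/-- the regions have no holes -/
theorem no_hole (hS : IsTarget S) (T : Finset (Set E3)) (hT : ∀ t ∈ T, ∃ a b, t = segment ℝ a b)
    (hD : F.seams = ⋃ t ∈ T, t) {g : E2 →ᵃⁱ[ℝ] E3} {x : E2} (hx : x ∈ F.W g) {q : E2}
    (hq : q ∉ closure (connectedComponentIn (F.W g) x)) :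
    ¬ Bornology.IsBounded (connectedComponentIn (closure (connectedComponentIn (F.W g) x))ᶜ q) := by
  classical
  intro hb
  set R := connectedComponentIn (F.W g) x with hR
  set V := connectedComponentIn (closure R)ᶜ q with hV
  have hRo : IsOpen R := (F.isOpen_W g).connectedComponentIn
  have hRW : R ⊆ F.W g := connectedComponentIn_subset _ _
  have hxR : x ∈ R := mem_connectedComponentIn hx
  have hVo : IsOpen V := isClosed_closure.isOpen_compl.connectedComponentIn
  have hqV : q ∈ V := mem_connectedComponentIn hq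
  have hVR : Disjoint V R := by
    rw [Set.disjoint_left]
    intro y hy hyR
    exact connectedComponentIn_subset _ _ hy (subset_closure hyR)
  have hVK : V ⊆ F.K g :=
    (bounded_subset_hull hRo ⟨x, hxR⟩ hb).trans (convexHull_mono hRW)
  -- `V` is in the closure of `W`
  have hVW : V ⊆ F.W g := by
    rw [← F.interior_closure_W hS g]
    refine interior_maximal ?_ hVo
    intro v hv
    by_contra hvW
    refine F.not_island hS T hT hD hvW ?_
    refine Subset.trans ?_ hVK
    have h1 : connectedComponentIn (closure (F.W g))ᶜ v ⊆ (closure R)ᶜ :=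
      (connectedComponentIn_subset _ _).trans (compl_subset_compl.mpr (closure_mono hRW))
    have h2 := isPreconnected_connectedComponentIn.subset_connectedComponentIn
      (mem_connectedComponentIn hvW) h1
    rwa [← connectedComponentIn_eq hv] at h2
  set T' : Finset (Set E2) := T.image (fun t => g ⁻¹' t) with hT'
  have hT1 : ∀ t ∈ T', IsClosed t := by
    intro t ht
    obtain ⟨s, hs, rfl⟩ := Finset.mem_image.mp ht
    obtain ⟨a, b, rfl⟩ := hT s hs
    exact (isClosed_seg a b).preimage g.continuous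
  have hT2 : ∀ t ∈ T', Lin t := by
    intro t ht
    obtain ⟨s, hs, rfl⟩ := Finset.mem_image.mp ht
    obtain ⟨a, b, rfl⟩ := hT s hs
    exact (lin_segment a b).preimage g
  have hseam : ∀ x, g x ∈ F.seams → ∃ t ∈ T', x ∈ t := by
    intro x hx
    rw [hD] at hx
    obtain ⟨t, ht, hxt⟩ := mem_iUnion₂.mp hx
    exact ⟨g ⁻¹' t, Finset.mem_image_of_mem _ ht, hxt⟩
  obtain ⟨Ex, hEx, hExp⟩ := exists_exceptional T' hT1 hT2
  obtain ⟨w, hwV, hwV', hwE⟩ := frontier_not_finite hVo ⟨q, hqV⟩ hb hEx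
  obtain ⟨ε, hε, n, hn, hline⟩ := hExp w hwE
  -- `w` is in the closure of `R`
  have hwR : w ∈ closure R := by
    by_contra hcon
    have h1 : IsOpen (connectedComponentIn (closure R)ᶜ w) :=
      isClosed_closure.isOpen_compl.connectedComponentIn
    have h2 : w ∈ connectedComponentIn (closure R)ᶜ w := mem_connectedComponentIn hcon
    obtain ⟨z, hz1, hz2⟩ := mem_closure_iff.mp hwV _ h1 h2
    have h3 := connectedComponentIn_eq hz1
    have h4 := connectedComponentIn_eq hz2
    apply hwV'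
    rw [hV, h4, ← h3]
    exact h2
  have hsubR : ∀ U : Set E2, IsPreconnected U → U ⊆ F.W g → (U ∩ R).Nonempty → U ⊆ R := by
    intro U hU hUW hne
    obtain ⟨z, hzU, hzR⟩ := hne
    have h1 := hU.subset_connectedComponentIn hzU hUW
    rwa [← connectedComponentIn_eq hzR] at h1
  have hwW : w ∈ F.W g := by
    by_cases hgw : g w ∈ F.seams
    · -- the half discs are contained in `W`
      have hdich : ∀ m : E2, (∀ x, inner ℝ (x - w) n = 0 → inner ℝ (x - w) m = 0) →
          (half w m ε ∩ F.W g).Nonempty → half w m ε ⊆ F.W g := by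
        intro m hm ⟨z, hz1, hz2⟩
        have h1 : half w m ε ⊆ F.W g ∪ (closure (F.W g))ᶜ := by
          intro x hx
          by_cases hxc : x ∈ closure (F.W g)
          · left
            refine F.mem_W_of_closure hS hxc fun hD' => ?_
            obtain ⟨t, ht, hxt⟩ := hseam x hD'
            exact hx.2.ne' (hm x (hline x hx.1 t ht hxt))
          · exact Or.inr hxc
        have h2 : Disjoint (F.W g) (closure (F.W g))ᶜ := by
          rw [Set.disjoint_left]
          intro x hx hx2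
          exact hx2 (subset_closure hx)
        rcases IsPreconnected.subset_or_subset (F.isOpen_W g) isClosed_closure.isOpen_compl h2 h1
          (half_convex w m ε).isPreconnected with h | h
        · exact h
        · exact absurd (subset_closure hz2) (h hz1)
      obtain ⟨y, hyV, hyb, hyn⟩ := exists_off hn hε hVo hwV
      obtain ⟨n', hn', hiff, hy0⟩ : ∃ n' : E2, n' ≠ 0 ∧
          (∀ x, inner ℝ (x - w) n' = 0 ↔ inner ℝ (x - w) n = 0) ∧ 0 < inner ℝ (y - w) n' := by
        rcases lt_or_gt_of_ne hyn with h | h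
        · refine ⟨-n, neg_ne_zero.mpr hn, fun y => ?_, ?_⟩
          · rw [inner_neg_right, neg_eq_zero]
          · rw [inner_neg_right]
            linarith
        · exact ⟨n, hn, fun y => Iff.rfl, h⟩
      have hU1 : half w n' ε ⊆ F.W g :=
        hdich n' (fun y h => (hiff y).mpr h) ⟨y, ⟨hyb, hy0⟩, hVW hyV⟩
      obtain ⟨z, hzR, hzb, hzn⟩ := exists_off hn' hε hRo hwR
      have hz0 : 0 < inner ℝ (z - w) (-n') := by
        rw [inner_neg_right]
        rcases lt_or_gt_of_ne hzn with h | h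
        · linarith
        · exfalso
          have h1 := hsubR _ (half_convex w n' ε).isPreconnected hU1 ⟨z, ⟨hzb, h⟩, hzR⟩
          exact Set.disjoint_left.mp hVR hyV (h1 ⟨hyb, hy0⟩)
      have hU2 : half w (-n') ε ⊆ F.W g :=
        hdich (-n') (fun y h => by rw [inner_neg_right, neg_eq_zero]; exact (hiff y).mpr h)
          ⟨z, ⟨hzb, hz0⟩, hRW hzR⟩
      rw [← F.interior_closure_W hS g, mem_interior]
      refine ⟨ball w ε, ?_, isOpen_ball, mem_ball_self hε⟩
      intro w' hw'
      rcases lt_trichotomy (inner ℝ (w' - w) n') 0 with h3 | h3 | h3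
      · refine subset_closure (hU2 ⟨hw', ?_⟩)
        rw [inner_neg_right]
        linarith
      · exact closure_mono hU1 (half_closure hn' hw' h3)
      · exact subset_closure (hU1 ⟨hw', h3⟩)
    · exact F.mem_W_of_closure hS (closure_mono hRW hwR) hgw
  obtain ⟨δ, hδ, hball⟩ := Metric.isOpen_iff.mp (F.isOpen_W g) w hwW
  have h1 : (ball w δ ∩ R).Nonempty := mem_closure_iff.mp hwR _ isOpen_ball (mem_ball_self hδ)
  have h2 : (ball w δ ∩ V).Nonempty := mem_closure_iff.mp hwV _ isOpen_ball (mem_ball_self hδ)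
  have h3 := hsubR _ (convex_ball w δ).isPreconnected hball h1
  exact Set.disjoint_left.mp hVR h2.choose_spec.2 (h3 h2.choose_spec.1)

/-- the regions have no slits -/
theorem region_regular (hS : IsTarget S) {g : E2 →ᵃⁱ[ℝ] E3} (x : E2) :
    interior (closure (connectedComponentIn (F.W g) x)) = connectedComponentIn (F.W g) x := by
  set R := connectedComponentIn (F.W g) x with hR
  have hRo : IsOpen R := (F.isOpen_W g).connectedComponentIn
  have hRW : R ⊆ F.W g := connectedComponentIn_subset _ _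
  refine subset_antisymm ?_ (interior_maximal subset_closure hRo)
  intro w hw
  have hwW : w ∈ F.W g := by
    rw [← F.interior_closure_W hS g]
    exact interior_mono (closure_mono hRW) hw
  obtain ⟨δ, hδ, hball⟩ := Metric.isOpen_iff.mp (F.isOpen_W g) w hwW
  obtain ⟨z, hz1, hz2⟩ := mem_closure_iff.mp (interior_subset hw) _ isOpen_ball (mem_ball_self hδ)
  have h1 := (convex_ball w δ).isPreconnected.subset_connectedComponentIn hz1 hball
  rw [← connectedComponentIn_eq hz2] at h1
  exact h1 (mem_ball_self hδ)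

theorem region_eq (hS : IsTarget S) {g : E2 →ᵃⁱ[ℝ] E3} {x : E2} (hx : x ∈ F.W g) :
    connectedComponentIn (S \ F.seams) (F.f x) = g '' connectedComponentIn (F.W g) x := by
  have hsub : g '' F.W g ⊆ S \ F.seams := by
    rintro _ ⟨y, hy, rfl⟩
    exact F.mem_diff_iff.mpr ⟨g, y, hy, hy.1.mem.2⟩
  have hs : F.f x ∈ S \ F.seams := F.mem_diff_iff.mpr ⟨g, x, hx, rfl⟩
  apply subset_antisymm
  · have h1 : connectedComponentIn (S \ F.seams) (F.f x) ⊆ g '' F.W g := by
      intro t ht
      obtain ⟨h, ⟨y, hy, hyx⟩, z, hz, rfl⟩ := F.same_region hS hs ht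
      obtain ⟨-, rfl⟩ := F.W_unique hy hx hyx
      exact ⟨z, hz, hz.1.mem.2.symm⟩
    have h2 : g '' (g ⁻¹' connectedComponentIn (S \ F.seams) (F.f x)) =
        connectedComponentIn (S \ F.seams) (F.f x) :=
      image_preimage_eq_of_subset (h1.trans (image_subset_range _ _))
    have h3 : IsPreconnected (g ⁻¹' connectedComponentIn (S \ F.seams) (F.f x)) := by
      rw [← g.isometry.isEmbedding.isInducing.isPreconnected_image, h2]
      exact isPreconnected_connectedComponentIn
    have h4 : g ⁻¹' connectedComponentIn (S \ F.seams) (F.f x) ⊆ F.W g := by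
      intro z hz
      obtain ⟨y, hy, hyz⟩ := h1 hz
      rwa [g.injective hyz] at hy
    have h5 : x ∈ g ⁻¹' connectedComponentIn (S \ F.seams) (F.f x) := by
      change g x ∈ connectedComponentIn (S \ F.seams) (F.f x)
      rw [← hx.1.mem.2]
      exact mem_connectedComponentIn hs
    rw [← h2]
    exact image_mono (h3.subset_connectedComponentIn h5 h4)
  · refine (isPreconnected_connectedComponentIn.image g g.continuous.continuousOn).subset_connectedComponentIn
      ⟨x, mem_connectedComponentIn hx, hx.1.mem.2.symm⟩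
      ((image_mono (connectedComponentIn_subset _ _)).trans hsub)

theorem isCell (hS : IsTarget S) (T : Finset (Set E3))
    (hT : ∀ t ∈ T, ∃ a b, t = segment ℝ a b) (hD : F.seams = ⋃ t ∈ T, t) {s : E3}
    (hs : s ∈ S \ F.seams) : IsCell (connectedComponentIn (S \ F.seams) s) := by
  obtain ⟨g, x, hx, rfl⟩ := F.mem_diff_iff.mp hs
  exact ⟨g, connectedComponentIn (F.W g) x, F.region_eq hS hx,
    (F.isOpen_W g).connectedComponentIn, isConnected_connectedComponentIn_iff.mpr hx,
    F.region_regular hS x, fun q hq => F.no_hole hS T hT hD hx hq⟩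

/-- the stacking of a folding -/
theorem isStacking (hS : IsTarget S) (T : Finset (Set E3))
    (hT : ∀ t ∈ T, ∃ a b, t = segment ℝ a b) (hD : F.seams = ⋃ t ∈ T, t) :
    IsStacking S F.seams F.same F.low where
  refl s hs := by
    obtain ⟨g, x, hx, rfl⟩ := F.mem_diff_iff.mp hs
    exact ⟨g, ⟨x, hx, rfl⟩, x, hx, rfl⟩
  symm s _ t _ h := by
    obtain ⟨g, h1, h2⟩ := h
    exact ⟨g, h2, h1⟩
  trans s _ t _ u _ h1 h2 := by
    obtain ⟨g, hga, y, hy, hyb⟩ := h1
    obtain ⟨h, ⟨y', hy', hyb'⟩, hgc⟩ := h2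
    obtain ⟨-, rfl⟩ := F.W_unique hy hy' (hyb.trans hyb'.symm)
    exact ⟨g, hga, hgc⟩
  region s hs := ⟨F.isCell hS T hT hD hs, fun t ht => F.same_region hS hs ht⟩
  sheet s hs := by
    obtain ⟨g, x, hx, rfl⟩ := F.mem_diff_iff.mp hs
    refine ⟨g, F.W g, F.vis_eq hx, F.isOpen_W g, F.interior_closure_W hS g, ?_,
      fun q hq => F.not_island hS T hT hD hq⟩
    rintro _ ⟨z, hz, rfl⟩
    rw [← F.f_of_mem_K hz]
    exact F.mem_S (F.K_subset g hz).1
  congr s _ t _ s' _ t' _ h1 h2 h3 := by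
    obtain ⟨g, h, ⟨x, hx, hxs⟩, ⟨y, hy, hyt⟩, hgh, p, hp⟩ := h3
    obtain ⟨g', ⟨x', hx', hxs'⟩, hg's⟩ := h1
    obtain ⟨h', ⟨y', hy', hyt'⟩, hh't⟩ := h2
    obtain ⟨-, rfl⟩ := F.W_unique hx hx' (hxs.trans hxs'.symm)
    obtain ⟨-, rfl⟩ := F.W_unique hy hy' (hyt.trans hyt'.symm)
    exact ⟨g, h, hg's, hh't, hgh, p, hp⟩
  asymm s _ t _ h1 h2 := by
    obtain ⟨g, h, ⟨x, hx, hxs⟩, ⟨y, hy, hyt⟩, hgh, p, hp⟩ := h1
    obtain ⟨h', g', ⟨y', hy', hyt'⟩, ⟨x', hx', hxs'⟩, -, q, hq⟩ := h2
    obtain ⟨-, rfl⟩ := F.W_unique hx hx' (hxs.trans hxs'.symm)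
    obtain ⟨-, rfl⟩ := F.W_unique hy hy' (hyt.trans hyt'.symm)
    exact F.ab_asymm hgh hp hq
  total s hs t ht hst hne := by
    obtain ⟨g, x, hx, rfl⟩ := F.mem_diff_iff.mp hs
    obtain ⟨h, y, hy, rfl⟩ := F.mem_diff_iff.mp ht
    rw [F.vis_eq hx, F.vis_eq hy, F.hull_eq, F.hull_eq] at hne
    have hgh : g ≠ h := by
      rintro rfl
      exact hst ⟨g, ⟨x, hx, rfl⟩, y, hy, rfl⟩
    obtain ⟨p, hp⟩ := hne
    rcases F.ab_total hgh hp with h1 | h1
    · exact Or.inl ⟨g, h, ⟨x, hx, rfl⟩, ⟨y, hy, rfl⟩, hgh, p, h1⟩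
    · exact Or.inr ⟨h, g, ⟨y, hy, rfl⟩, ⟨x, hx, rfl⟩, hgh.symm, p, h1⟩
  low_trans s hs t ht u hu hne h1 h2 := by
    obtain ⟨g, h, ⟨x, hx, rfl⟩, ⟨y, hy, rfl⟩, hgh, p, hp⟩ := h1
    obtain ⟨h', k, ⟨y', hy', hyt'⟩, ⟨z, hz, rfl⟩, hhk, p', hp'⟩ := h2
    obtain ⟨-, rfl⟩ := F.W_unique hy' hy hyt'
    rw [F.vis_eq hx, F.vis_eq hy, F.vis_eq hz, F.hull_eq, F.hull_eq, F.hull_eq] at hne
    obtain ⟨r, ⟨hr1, hr2⟩, hr3⟩ := hne
    have h3 := F.ab_const hgh (F.ab_mem hp) ⟨hr1, hr2⟩ hp
    have h4 := F.ab_const hhk (F.ab_mem hp') ⟨hr2, hr3⟩ hp'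
    have h5 := F.ab_trans h3 h4
    have hgk : g ≠ k := by
      rintro rfl
      exact F.ab_asymm hgh h3 h4
    exact ⟨g, k, ⟨x, hx, rfl⟩, ⟨z, hz, rfl⟩, hgk, r, h5⟩
  top s hs t ht hst htm := by
    obtain ⟨g, x, hx, rfl⟩ := F.mem_diff_iff.mp hs
    obtain ⟨h, y, hy, rfl⟩ := F.mem_diff_iff.mp ht
    have hgh : g ≠ h := by
      rintro rfl
      exact hst ⟨g, ⟨x, hx, rfl⟩, y, hy, rfl⟩
    rw [F.vis_eq hx, F.hull_eq] at htm
    obtain ⟨z, hz, hzy⟩ := htm
    have hfz : F.f z = F.f y := by rw [F.f_of_mem_K hz, hzy]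
    have hyK := F.W_subset_K h hy
    exact ⟨g, h, ⟨x, hx, rfl⟩, ⟨y, hy, rfl⟩, hgh, F.f y, z, hz, y, hyK, hfz, rfl,
      F.up_of_W hy (F.reg_of_mem_K hz) (F.ne_of_flat hgh hz hyK) hfz⟩

/-- the colour is constant on a sheet -/
theorem colour {ν : E3 → E3} (hν : IsNormal S ν) {red : Set E3}
    (hc : ∀ x g, FlatAt P F.f g x → F.TopAt x → (F.f x ∈ red ↔ Shows g (ν (F.f x))))
    {s t : E3} (h : F.same s t) : s ∈ red ↔ t ∈ red := by
  obtain ⟨g, ⟨x, hx, rfl⟩, y, hy, rfl⟩ := h
  rw [hc x g hx.1 hx.2, hc y g hy.1 hy.2]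
  have hconst : ν (g x) = ν (g y) := by
    refine (F.convex_K g).isPreconnected.induction₂ (fun a b => ν (g a) = ν (g b)) ?_
      (fun a b c _ _ _ h1 h2 => h1.trans h2) (fun a b _ _ h1 => h1.symm) (F.W_subset_K g hx)
      (F.W_subset_K g hy)
    intro a ha
    obtain ⟨r, hr, hball⟩ := Metric.isOpen_iff.mp (F.isOpen_K g) a ha
    have h1 : g '' ball a r ⊆ S := by
      rintro _ ⟨z, hz, rfl⟩
      rw [← F.f_of_mem_K (hball hz)]
      exact F.mem_S (F.K_subset g (hball hz)).1
    filter_upwards [mem_nhdsWithin_of_mem_nhds (ball_mem_nhds a hr)] with b hb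
    exact (hν g a r hr h1 b hb).symm
  rw [hx.1.mem.2, hy.1.mem.2, hconst]

end Folding

/-- a subset of a plane is a target -/
theorem isTarget_of_planar {S : Set E3} {h : E2 →ᵃⁱ[ℝ] E3} (hS : S ⊆ range h) : IsTarget S := by
  intro g x r hr hg
  have hle : (⊤ : AffineSubspace ℝ E2).map g.toAffineMap ≤
      (⊤ : AffineSubspace ℝ E2).map h.toAffineMap := by
    have h1 : affineSpan ℝ (ball x r) = ⊤ := isOpen_ball.affineSpan_eq_top ⟨x, mem_ball_self hr⟩
    rw [← h1, AffineSubspace.map_span, affineSpan_le]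
    rintro _ ⟨y, hy, rfl⟩
    obtain ⟨z, hz⟩ := hS (hg ⟨y, hy, rfl⟩)
    rw [h1]
    exact ⟨z, trivial, hz⟩
  have hdir : ∀ k : E2 →ᵃⁱ[ℝ] E3,
      Module.finrank ℝ ((⊤ : AffineSubspace ℝ E2).map k.toAffineMap).direction = 2 := by
    intro k
    rw [AffineSubspace.map_direction, AffineSubspace.direction_top, Submodule.map_top,
      LinearMap.finrank_range_of_inj]
    · simp
    · exact k.toAffineMap.linear_injective_iff.mpr k.injective
  have heq : (⊤ : AffineSubspace ℝ E2).map g.toAffineMap =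
      (⊤ : AffineSubspace ℝ E2).map h.toAffineMap := by
    refine AffineSubspace.eq_of_direction_eq_of_nonempty_of_le ?_ ⟨g x, x, trivial, rfl⟩ hle
    exact Submodule.eq_of_le_of_finrank_eq (AffineSubspace.direction_le hle)
      ((hdir g).trans (hdir h).symm)
  filter_upwards [self_mem_nhdsWithin, mem_nhdsWithin_of_mem_nhds (ball_mem_nhds (g x) hr)]
    with s hs hs2
  obtain ⟨z, hz⟩ := hS hs
  have h1 : s ∈ (⊤ : AffineSubspace ℝ E2).map g.toAffineMap := by
    rw [heq]
    exact ⟨z, trivial, hz⟩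
  obtain ⟨y, -, hy⟩ := h1
  refine ⟨y, ?_, hy⟩
  rw [mem_ball, ← g.dist_map]
  have h2 : g y = s := hy
  rw [h2]
  exact hs2

end Pool.Agent.Hhelper79.Seam
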