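import Pool.Agent.Hhelper79.Seam.Base

/-!
# Seam patterns: the sheets of a folding
-/

namespace Pool.Agent.Hhelper79.Seam

open Set Filter Topology Metric

variable {P : Set E2} {S : Set E3}

namespace Folding

variable (F : Folding P S)

/-- the visible part of the sheet placed by `g`, in the paper -/
def W (g : E2 →ᵃⁱ[ℝ] E3) : Set E2 := {x | FlatAt P F.f g x ∧ F.TopAt x}

/-- the hull of the visible part, in the paper -/
def K (g : E2 →ᵃⁱ[ℝ] E3) : Set E2 := convexHull ℝ (F.W g)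

theorem isOpen_W (g : E2 →ᵃⁱ[ℝ] E3) : IsOpen (F.W g) := by
  rw [isOpen_iff_mem_nhds]
  rintro x ⟨h1, h2⟩
  filter_upwards [h1.eventually, eventually_eventually_nhds.mpr h2] with y hy1 hy2
  exact ⟨hy1, hy2⟩

theorem isOpen_K (g : E2 →ᵃⁱ[ℝ] E3) : IsOpen (F.K g) := (F.isOpen_W g).convexHull

theorem convex_K (g : E2 →ᵃⁱ[ℝ] E3) : Convex ℝ (F.K g) := convex_convexHull ℝ _

theorem W_subset_K (g : E2 →ᵃⁱ[ℝ] E3) : F.W g ⊆ F.K g := subset_convexHull ℝ _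

theorem K_subset (g : E2 →ᵃⁱ[ℝ] E3) : F.K g ⊆ {x | x ∈ P ∧ F.f x = g x} :=
  convexHull_min (fun _ hx => hx.1.mem) (F.convex_agree g)

theorem flat_of_mem_K {g : E2 →ᵃⁱ[ℝ] E3} {x : E2} (hx : x ∈ F.K g) : FlatAt P F.f g x := by
  filter_upwards [(F.isOpen_K g).mem_nhds hx] with y hy
  exact F.K_subset g hy

theorem f_of_mem_K {g : E2 →ᵃⁱ[ℝ] E3} {x : E2} (hx : x ∈ F.K g) : F.f x = g x :=
  (F.flat_of_mem_K hx).mem.2

theorem reg_of_mem_K {g : E2 →ᵃⁱ[ℝ] E3} {x : E2} (hx : x ∈ F.K g) : RegAt P F.f x :=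
  (F.flat_of_mem_K hx).regAt

theorem up_of_W {g : E2 →ᵃⁱ[ℝ] E3} {x y : E2} (hx : x ∈ F.W g) (hy : RegAt P F.f y) (hxy : y ≠ x)
    (hf : F.f y = F.f x) : F.up x y := hx.2.self_of_nhds y hy hxy hf

theorem W_unique {g h : E2 →ᵃⁱ[ℝ] E3} {x y : E2} (hx : x ∈ F.W g) (hy : y ∈ F.W h)
    (hxy : F.f x = F.f y) : x = y ∧ g = h := by
  have h1 : x = y := by
    by_contra hne
    have h2 := F.up_of_W hx hy.1.regAt (Ne.symm hne) hxy.symm
    have h3 := F.up_of_W hy hx.1.regAt hne hxy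
    exact F.asymm x y hx.1.regAt hy.1.regAt hxy h2 h3
  subst h1
  exact ⟨rfl, hx.1.unique hy.1⟩

theorem mem_S {x : E2} (hx : x ∈ P) : F.f x ∈ S :=
  F.image.subset (mem_image_of_mem _ hx)

theorem mem_diff_iff {s : E3} : s ∈ S \ F.seams ↔ ∃ (g : E2 →ᵃⁱ[ℝ] E3) (x : E2), x ∈ F.W g ∧
    F.f x = s := by
  constructor
  · rintro ⟨hs, hs2⟩
    simp only [seams, mem_ofPred_eq, not_and, not_not] at hs2
    obtain ⟨x, g, h1, h2, h3⟩ := hs2 hs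
    exact ⟨g, x, ⟨h2, h3⟩, h1⟩
  · rintro ⟨g, x, hx, rfl⟩
    refine ⟨F.mem_S hx.1.mem.1, ?_⟩
    rintro ⟨-, h⟩
    exact h ⟨x, g, rfl, hx.1, hx.2⟩

/-- `s` and `t` are seen on the same sheet -/
def same (s t : E3) : Prop :=
  ∃ g : E2 →ᵃⁱ[ℝ] E3, (∃ x ∈ F.W g, F.f x = s) ∧ ∃ y ∈ F.W g, F.f y = t

theorem vis_eq {g : E2 →ᵃⁱ[ℝ] E3} {x : E2} (hx : x ∈ F.W g) :
    vis S F.seams F.same (F.f x) = g '' F.W g := by
  ext t
  constructor
  · rintro ⟨-, -, h, ⟨y, hy, hyx⟩, z, hz, rfl⟩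
    obtain ⟨-, rfl⟩ := F.W_unique hy hx hyx
    exact ⟨z, hz, (hz.1.mem.2).symm⟩
  · rintro ⟨y, hy, rfl⟩
    have h1 := F.mem_diff_iff.mpr ⟨g, y, hy, hy.1.mem.2⟩
    exact ⟨h1.1, h1.2, g, ⟨x, hx, rfl⟩, y, hy, hy.1.mem.2⟩

theorem hull_eq (g : E2 →ᵃⁱ[ℝ] E3) : convexHull ℝ (g '' F.W g) = g '' F.K g :=
  (g.toAffineMap.image_convexHull (F.W g)).symm

theorem ne_of_flat {g h : E2 →ᵃⁱ[ℝ] E3} (hgh : g ≠ h) {z z' : E2} (hz : z ∈ F.K g)
    (hz' : z' ∈ F.K h) : z ≠ z' := by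
  rintro rfl
  exact hgh ((F.flat_of_mem_K hz).unique (F.flat_of_mem_K hz'))

/-- the sheet `h` is above the sheet `g` at `p` -/
def Ab (g h : E2 →ᵃⁱ[ℝ] E3) (p : E3) : Prop :=
  ∃ z ∈ F.K g, ∃ z' ∈ F.K h, F.f z = p ∧ F.f z' = p ∧ F.up z' z

theorem ab_local {g h : E2 →ᵃⁱ[ℝ] E3} (hgh : g ≠ h) {p : E3} (hp : p ∈ g '' F.K g ∩ h '' F.K h) :
    ∀ᶠ q in 𝓝[g '' F.K g ∩ h '' F.K h] p, (F.Ab g h p ↔ F.Ab g h q) := by
  obtain ⟨⟨z, hz, hzp⟩, z', hz', hzp'⟩ := hp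
  have hfz : F.f z = p := by rw [F.f_of_mem_K hz, hzp]
  have hfz' : F.f z' = p := by rw [F.f_of_mem_K hz', hzp']
  have hne := F.ne_of_flat hgh hz hz'
  have huniq : ∀ q z1 z1', z1 ∈ F.K g → z1' ∈ F.K h → F.f z1 = q → F.f z1' = q →
      (F.Ab g h q ↔ F.up z1' z1) := by
    intro q z1 z1' h1 h1' h2 h2'
    constructor
    · rintro ⟨a, ha, b, hb, haq, hbq, hab⟩
      have h3 : a = z1 := g.injective (by
        rw [← F.f_of_mem_K ha, ← F.f_of_mem_K h1, haq, h2])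
      have h4 : b = z1' := h.injective (by
        rw [← F.f_of_mem_K hb, ← F.f_of_mem_K h1', hbq, h2'])
      rwa [h3, h4] at hab
    · intro h3
      exact ⟨z1, h1, z1', h1', h2, h2', h3⟩
  have hloc : ∀ Q : E2 × E2 → Prop, (∀ᶠ q in 𝓝 (z, z'), Q q) →
      ∀ᶠ q in 𝓝[g '' F.K g ∩ h '' F.K h] p, ∀ a ∈ F.K g, ∀ b ∈ F.K h, g a = q → h b = q →
        Q (a, b) := by
    intro Q hQ
    obtain ⟨ε, hε, hQε⟩ := Metric.eventually_nhds_iff.mp hQ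
    have h1 : ∀ᶠ q in 𝓝[g '' F.K g ∩ h '' F.K h] p, dist q p < ε :=
      nhdsWithin_le_nhds (ball_mem_nhds p hε)
    filter_upwards [h1] with q hq a _ b _ haq hbq
    apply hQε
    rw [Prod.dist_eq]
    refine max_lt ?_ ?_
    · rw [← g.dist_map, haq, hzp]
      exact hq
    · rw [← h.dist_map, hbq, hzp']
      exact hq
  rcases F.tortilla z z' (F.reg_of_mem_K hz) (F.K_subset h hz').1 hne.symm
    (hfz'.trans hfz.symm) with hT | hT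
  · filter_upwards [hloc _ hT, self_mem_nhdsWithin] with q hq hqA
    obtain ⟨⟨a, ha, haq⟩, b, hb, hbq⟩ := hqA
    have h1 := hq a ha b hb haq hbq (F.reg_of_mem_K ha) (F.reg_of_mem_K hb)
      (by rw [F.f_of_mem_K ha, F.f_of_mem_K hb, haq, hbq])
    have h2 := hT.self_of_nhds (F.reg_of_mem_K hz) (F.reg_of_mem_K hz') (hfz.trans hfz'.symm)
    rw [huniq p z z' hz hz' hfz hfz', huniq q a b ha hb (by rw [F.f_of_mem_K ha, haq])
      (by rw [F.f_of_mem_K hb, hbq])]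
    refine iff_of_false (F.asymm _ _ (F.reg_of_mem_K hz) (F.reg_of_mem_K hz')
      (hfz.trans hfz'.symm) h2) (F.asymm _ _ (F.reg_of_mem_K ha) (F.reg_of_mem_K hb)
      (by rw [F.f_of_mem_K ha, F.f_of_mem_K hb, haq, hbq]) h1)
  · filter_upwards [hloc _ hT, self_mem_nhdsWithin] with q hq hqA
    obtain ⟨⟨a, ha, haq⟩, b, hb, hbq⟩ := hqA
    have h1 := hq a ha b hb haq hbq (F.reg_of_mem_K ha) (F.reg_of_mem_K hb)
      (by rw [F.f_of_mem_K ha, F.f_of_mem_K hb, haq, hbq])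
    have h2 := hT.self_of_nhds (F.reg_of_mem_K hz) (F.reg_of_mem_K hz') (hfz.trans hfz'.symm)
    rw [huniq p z z' hz hz' hfz hfz', huniq q a b ha hb (by rw [F.f_of_mem_K ha, haq])
      (by rw [F.f_of_mem_K hb, hbq])]
    exact iff_of_true h2 h1

theorem ab_const {g h : E2 →ᵃⁱ[ℝ] E3} (hgh : g ≠ h) {p q : E3}
    (hp : p ∈ g '' F.K g ∩ h '' F.K h) (hq : q ∈ g '' F.K g ∩ h '' F.K h) (hab : F.Ab g h p) :
    F.Ab g h q := by
  have hconv : Convex ℝ (g '' F.K g ∩ h '' F.K h) :=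
    ((F.convex_K g).affine_image g.toAffineMap).inter ((F.convex_K h).affine_image h.toAffineMap)
  have h1 := hconv.isPreconnected.induction₂ (fun a b => F.Ab g h a ↔ F.Ab g h b)
    (fun a ha => F.ab_local hgh ha) (fun a b c _ _ _ h1 h2 => h1.trans h2)
    (fun a b _ _ h1 => h1.symm) hp hq
  exact h1.mp hab

/-- the sheet of `s` lies below the sheet of `t` -/
def low (s t : E3) : Prop :=
  ∃ g h : E2 →ᵃⁱ[ℝ] E3, (∃ x ∈ F.W g, F.f x = s) ∧ (∃ y ∈ F.W h, F.f y = t) ∧ g ≠ h ∧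
    ∃ p, F.Ab g h p

theorem ab_mem {g h : E2 →ᵃⁱ[ℝ] E3} {p : E3} (hp : F.Ab g h p) :
    p ∈ g '' F.K g ∩ h '' F.K h := by
  obtain ⟨z, hz, z', hz', h1, h2, -⟩ := hp
  exact ⟨⟨z, hz, by rw [← F.f_of_mem_K hz, h1]⟩, z', hz', by rw [← F.f_of_mem_K hz', h2]⟩

theorem ab_asymm {g h : E2 →ᵃⁱ[ℝ] E3} (hgh : g ≠ h) {p q : E3} (hp : F.Ab g h p)
    (hq : F.Ab h g q) : False := by
  have h1 := F.ab_const hgh (F.ab_mem hp) (F.ab_mem hq).symm hp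
  obtain ⟨a, ha, b, hb, haq, hbq, hab⟩ := h1
  obtain ⟨b', hb', a', ha', hbq', haq', hba⟩ := hq
  have h3 : a = a' := g.injective (by rw [← F.f_of_mem_K ha, ← F.f_of_mem_K ha', haq, haq'])
  have h4 : b = b' := h.injective (by rw [← F.f_of_mem_K hb, ← F.f_of_mem_K hb', hbq, hbq'])
  subst h3 h4
  exact F.asymm _ _ (F.reg_of_mem_K hb) (F.reg_of_mem_K ha) (hbq.trans haq.symm) hab hba

theorem ab_total {g h : E2 →ᵃⁱ[ℝ] E3} (hgh : g ≠ h) {p : E3}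
    (hp : p ∈ g '' F.K g ∩ h '' F.K h) : F.Ab g h p ∨ F.Ab h g p := by
  obtain ⟨⟨z, hz, hzp⟩, z', hz', hzp'⟩ := hp
  have hfz : F.f z = p := by rw [F.f_of_mem_K hz, hzp]
  have hfz' : F.f z' = p := by rw [F.f_of_mem_K hz', hzp']
  rcases F.total z z' (F.reg_of_mem_K hz) (F.reg_of_mem_K hz') (hfz.trans hfz'.symm)
    (F.ne_of_flat hgh hz hz') with h1 | h1
  · exact Or.inr ⟨z', hz', z, hz, hfz', hfz, h1⟩
  · exact Or.inl ⟨z, hz, z', hz', hfz, hfz', h1⟩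

theorem ab_trans {g h k : E2 →ᵃⁱ[ℝ] E3} {p : E3} (h1 : F.Ab g h p) (h2 : F.Ab h k p) :
    F.Ab g k p := by
  obtain ⟨a, ha, b, hb, hap, hbp, hab⟩ := h1
  obtain ⟨b', hb', c, hc, hbp', hcp, hbc⟩ := h2
  have h4 : b = b' := h.injective (by rw [← F.f_of_mem_K hb, ← F.f_of_mem_K hb', hbp, hbp'])
  subst h4
  exact ⟨a, ha, c, hc, hap, hcp, F.trans c b a (F.reg_of_mem_K hc) (F.reg_of_mem_K hb)
    (F.reg_of_mem_K ha) (hcp.trans hbp.symm) (hbp.trans hap.symm) hbc hab⟩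

/-- the visible parts are open in the target -/
theorem same_local (hS : IsTarget S) {g : E2 →ᵃⁱ[ℝ] E3} {x : E2} (hx : x ∈ F.W g) :
    ∀ᶠ t in 𝓝[S] (F.f x), ∃ y ∈ F.W g, F.f y = t := by
  obtain ⟨r, hr, hball⟩ := Metric.isOpen_iff.mp (F.isOpen_W g) x hx
  have h1 : g '' ball x r ⊆ S := by
    rintro _ ⟨y, hy, rfl⟩
    rw [← (hball hy).1.mem.2]
    exact F.mem_S (hball hy).1.mem.1
  have h2 := hS g x r hr h1
  rw [← hx.1.mem.2] at h2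
  filter_upwards [h2] with t ht
  obtain ⟨y, hy, rfl⟩ := ht
  exact ⟨y, hball hy, (hball hy).1.mem.2⟩

theorem same_region (hS : IsTarget S) {s t : E3} (hs : s ∈ S \ F.seams)
    (ht : t ∈ connectedComponentIn (S \ F.seams) s) : F.same s t := by
  have hsub : connectedComponentIn (S \ F.seams) s ⊆ S \ F.seams :=
    connectedComponentIn_subset _ _
  refine isPreconnected_connectedComponentIn.induction₂ F.same ?_ ?_ ?_
    (mem_connectedComponentIn hs) ht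
  · intro a ha
    obtain ⟨g, x, hx, rfl⟩ := F.mem_diff_iff.mp (hsub ha)
    have h1 := F.same_local hS hx
    have h2 := nhdsWithin_mono (F.f x) (hsub.trans sdiff_subset) h1
    filter_upwards [h2] with t ht
    exact ⟨g, ⟨x, hx, rfl⟩, ht⟩
  · rintro a b c _ _ _ ⟨g, hga, y, hy, hyb⟩ ⟨h, ⟨y', hy', hyb'⟩, hgc⟩
    obtain ⟨-, rfl⟩ := F.W_unique hy hy' (hyb.trans hyb'.symm)
    exact ⟨g, hga, hgc⟩
  · rintro a b _ _ ⟨g, h1, h2⟩
    exact ⟨g, h2, h1⟩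

end Folding

end Pool.Agent.Hhelper79.Seam
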