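import Pool.Agent.Hhelper79.Seam.Region

/-!
# Every realisable seam pattern admits a sheet stacking (MP_6cce73_lc)

A necessary condition for the realisability of a seam pattern `D` on a polygon or polyhedral surface
`S`, with or without a two-colour pattern. All definitions are in `Pool.Agent.Hhelper79.Seam.Defs`.
-/

namespace Pool.Agent.Hhelper79.Seam.SheetStackingWeak

open Pool.Agent.Hhelper79.Seam Set

/-- Sanity check: subsets of a plane (planar polygons) are targets. -/
theorem planar (S : Set E3) (h : E2 →ᵃⁱ[ℝ] E3) (hS : S ⊆ range h) : IsTarget S :=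
  isTarget_of_planar hS

/-- Sanity check: uncreased paper is a folding. -/
theorem unfolded (P : Set E2) (hP : IsPoly P ∧ (interior P).Nonempty) (g : E2 →ᵃⁱ[ℝ] E3) :
    Nonempty (Folding P (g '' P)) :=
  ⟨{ f := g
     up := fun _ _ => False
     paper := hP
     pieces := ⟨{P}, by simpa using hP.1, by simp, by
       intro t _
       exact ⟨g, fun x _ => rfl⟩⟩
     image := rfl
     asymm := fun _ _ _ _ _ h => h.elim
     total := fun x y _ _ h hne => absurd (g.injective h) hne
     trans := fun _ _ _ _ _ _ _ _ h => h.elim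
     tortilla := fun x z _ _ hne h => absurd (g.injective h) hne
     taco := ⟨∅, Set.finite_empty, fun z z' _ _ hne h => absurd (g.injective h) hne⟩ }⟩

/-- Every realisable seam pattern admits a sheet stacking; for two-colour patterns, the colour is
constant on each sheet. -/
theorem result (S D : Set E3) (hS : IsTarget S)
    (hD : ∃ T : Finset (Set E3), (∀ t ∈ T, ∃ a b : E3, t = segment ℝ a b) ∧ D = ⋃ t ∈ T, t) :
    (Realisable S D → ∃ same low : E3 → E3 → Prop, IsStacking S D same low) ∧
    (∀ (ν : E3 → E3) (red : Set E3), IsNormal S ν → RealisableCol S ν red D →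
      ∃ same low : E3 → E3 → Prop, IsStacking S D same low ∧
        ∀ s ∈ S \ D, ∀ t ∈ S \ D, same s t → (s ∈ red ↔ t ∈ red)) := by
  obtain ⟨T, hT, rfl⟩ := hD
  constructor
  · rintro ⟨P, F, hF⟩
    refine ⟨F.same, F.low, ?_⟩
    rw [← hF]
    exact F.isStacking hS T hT hF
  · rintro ν red hν ⟨P, F, hF, hc⟩
    refine ⟨F.same, F.low, ?_, fun s _ t _ h => F.colour hν hc h⟩
    rw [← hF]
    exact F.isStacking hS T hT hF

end Pool.Agent.Hhelper79.Seam.SheetStackingWeak
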